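import Mathlib
import Pool.Agent.Y109.PI.Mat

/-! Counting alternating matrices over a prime field with prescribed values on one or two vectors. -/

set_option autoImplicit false
set_option linter.all false

open Matrix

noncomputable section

namespace Pool.Agent.H47PI

open Pool.Agent.Y109.PI

section grp

variable {A B : Type*} [AddCommGroup A] [AddCommGroup B] [Finite A]

theorem ker_mul (φ : A →+ B) : Nat.card φ.ker * Nat.card φ.range = Nat.card A := by
  rw [← Nat.card_congr (QuotientAddGroup.quotientKerEquivRange φ).toEquiv, mul_comm,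
    ← AddSubgroup.card_eq_card_quotient_mul_card_addSubgroup]

/-- fibres are not larger than the kernel -/
theorem fiber_le (φ : A →+ B) (x : B) : Nat.card {a : A // φ a = x} ≤ Nat.card φ.ker := by
  rcases isEmpty_or_nonempty {a : A // φ a = x} with h | ⟨⟨a0, h0⟩⟩
  · simp
  · refine Nat.card_le_card_of_injective (fun a => ⟨a.1 - a0, ?_⟩) ?_
    · rw [AddMonoidHom.mem_ker, map_sub, a.2, h0, sub_self]
    · intro a b hab
      simp only [Subtype.mk.injEq, sub_left_inj] at hab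
      exact Subtype.ext hab

/-- kernels are large -/
theorem ker_ge [Finite B] (φ : A →+ B) : Nat.card A ≤ Nat.card φ.ker * Nat.card B := by
  rw [← ker_mul φ]
  exact Nat.mul_le_mul_left _ (Nat.card_le_card_of_injective _ Subtype.val_injective)

/-- fibres of a homomorphism with a large image -/
theorem fiber_mul_le (φ : A →+ B) (x : B) (m : ℕ) (hm : m ≤ Nat.card φ.range) :
    Nat.card {a : A // φ a = x} * m ≤ Nat.card A := by
  rw [← ker_mul φ]
  exact Nat.mul_le_mul (fiber_le φ x) hm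

end grp

variable {p : ℕ} [hp : Fact p.Prime] {I : Type} [Fintype I] [DecidableEq I]

/-- the group of the alternating matrices -/
def AS (p : ℕ) (I : Type) : AddSubgroup (Matrix I I (ZMod p)) where
  carrier := {b | Alt b}
  add_mem' := by
    rintro a b ha hb
    exact ⟨fun u => by rw [Matrix.add_apply, ha.1, hb.1, add_zero], fun u v => by
      rw [Matrix.add_apply, Matrix.add_apply, ha.2 u v, hb.2 u v]; abel⟩
  zero_mem' := ⟨fun u => rfl, fun u v => by simp⟩
  neg_mem' := by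
    rintro a ha
    exact ⟨fun u => by rw [Matrix.neg_apply, ha.1, neg_zero], fun u v => by
      rw [Matrix.neg_apply, Matrix.neg_apply, ha.2 u v]⟩


theorem mem_AS {b : Matrix I I (ZMod p)} : b ∈ AS p I ↔ Alt b := Iff.rfl

instance : Finite (Matrix I I (ZMod p)) := by
  haveI : NeZero p := ⟨hp.out.ne_zero⟩
  exact inferInstanceAs (Finite (I → I → ZMod p))

instance : Finite (AS p I) := Subtype.finite

/-- the value on one vector -/
def ev (v : I → ZMod p) : AS p I →+ (I → ZMod p) where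
  toFun b := b.1 *ᵥ v
  map_zero' := by simp
  map_add' a b := by simp [Matrix.add_mulVec]

/-- the value on two vectors -/
def ev2 (v w : I → ZMod p) : AS p I →+ (I → ZMod p) × (I → ZMod p) where
  toFun b := (b.1 *ᵥ v, b.1 *ᵥ w)
  map_zero' := by simp
  map_add' a b := by simp [Matrix.add_mulVec]


theorem wdg_mulVec (e f a : I → ZMod p) (u : I) : (wdg e f *ᵥ a) u = e u * (f ⬝ᵥ a) - f u * (e ⬝ᵥ a) := by
  simp only [mulVec, dotProduct, wdg, Matrix.of_apply, Finset.mul_sum, ← Finset.sum_sub_distrib]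
  refine Finset.sum_congr rfl fun w _ => ?_
  ring

/-- a functional is given by a vector -/
theorem exists_vec (f : (I → ZMod p) →ₗ[ZMod p] ZMod p) : ∃ y : I → ZMod p, ∀ x, f x = y ⬝ᵥ x := by
  refine ⟨fun i => f (Pi.single i 1), fun x => ?_⟩
  conv_lhs => rw [← Finset.univ_sum_single x]
  rw [map_sum, dotProduct]
  refine Finset.sum_congr rfl fun i _ => ?_
  have : Pi.single i (x i) = x i • (Pi.single i 1 : I → ZMod p) := by
    rw [← Pi.single_smul, smul_eq_mul, mul_one]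
  rw [this, map_smul, smul_eq_mul, mul_comm]

theorem exists_dual1 (v : I → ZMod p) (hv : v ≠ 0) : ∃ v' : I → ZMod p, v' ⬝ᵥ v = 1 := by
  obtain ⟨i, hi⟩ : ∃ i, v i ≠ 0 := by
    by_contra h
    push Not at h
    exact hv (funext h)
  refine ⟨Pi.single i (v i)⁻¹, ?_⟩
  rw [single_dotProduct, inv_mul_cancel₀ hi]

/-- dual vectors -/
theorem exists_dual2 (v w : I → ZMod p) (hv : v ≠ 0) (hw : ∀ c : ZMod p, w ≠ c • v) :
    ∃ w' : I → ZMod p, w' ⬝ᵥ v = 0 ∧ w' ⬝ᵥ w = 1 := by
  have h1 : w ∉ Submodule.span (ZMod p) {v} := by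
    intro h
    obtain ⟨c, hc⟩ := Submodule.mem_span_singleton.1 h
    exact hw c hc.symm
  obtain ⟨f, hf, hf'⟩ := Submodule.exists_dual_map_eq_bot_of_notMem h1 inferInstance
  obtain ⟨y, hy⟩ := exists_vec f
  have hfv : f v = 0 := by
    have : f v ∈ (Submodule.span (ZMod p) {v}).map f := Submodule.mem_map_of_mem (Submodule.mem_span_singleton_self v)
    rw [hf'] at this
    simpa using this
  refine ⟨(f w)⁻¹ • y, ?_, ?_⟩
  · rw [smul_dotProduct, ← hy, hfv, smul_zero]
  · rw [smul_dotProduct, ← hy, smul_eq_mul, inv_mul_cancel₀ hf]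

/-- the dot product as a homomorphism -/
def dotHom (v : I → ZMod p) : (I → ZMod p) →+ ZMod p where
  toFun x := x ⬝ᵥ v
  map_zero' := by simp
  map_add' a b := by simp [add_dotProduct]

theorem card_vec : Nat.card (I → ZMod p) = p ^ Fintype.card I := by
  rw [Nat.card_fun, Nat.card_zmod, Nat.card_eq_fintype_card]

instance : Finite (I → ZMod p) := by
  haveI : NeZero p := ⟨hp.out.ne_zero⟩
  exact Pi.finite

instance finZ : Finite (ZMod p) := by
  haveI : NeZero p := ⟨hp.out.ne_zero⟩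
  infer_instance

theorem card_orth (v : I → ZMod p) (N : ℕ) (hN : Fintype.card I = N + 1) :
    p ^ N ≤ Nat.card {x : I → ZMod p // x ⬝ᵥ v = 0} := by
  have h := ker_ge (dotHom v)
  rw [card_vec, Nat.card_zmod, hN, pow_succ] at h
  exact Nat.le_of_mul_le_mul_right h hp.out.pos

theorem card_orth_eq (v : I → ZMod p) (hv : v ≠ 0) (N : ℕ) (hN : Fintype.card I = N + 1) :
    Nat.card {x : I → ZMod p // x ⬝ᵥ v = 0} = p ^ N := by
  have h := ker_mul (dotHom v)
  obtain ⟨v', hv'⟩ := exists_dual1 v hv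
  have h2 : (dotHom v).range = ⊤ := by
    rw [AddMonoidHom.range_eq_top]
    intro c
    refine ⟨c • v', ?_⟩
    change (c • v') ⬝ᵥ v = c
    rw [smul_dotProduct, hv', smul_eq_mul, mul_one]
  rw [h2, card_vec, hN, pow_succ] at h
  have h3 : Nat.card (⊤ : AddSubgroup (ZMod p)) = p := by
    rw [Nat.card_congr AddSubgroup.topEquiv.toEquiv, Nat.card_zmod]
  rw [h3] at h
  exact Nat.eq_of_mul_eq_mul_right hp.out.pos h

/-- **one vector** -/
theorem count1 (v x : I → ZMod p) (hv : v ≠ 0) (N : ℕ) (hN : Fintype.card I = N + 1) :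
    Nat.card {b : AS p I // b.1 *ᵥ v = x} * p ^ N ≤ Nat.card (AS p I) := by
  refine fiber_mul_le (ev v) x (p ^ N) ((card_orth v N hN).trans ?_)
  obtain ⟨v', hv'⟩ := exists_dual1 v hv
  refine Nat.card_le_card_of_injective (fun y => ⟨y.1, ⟨⟨wdg y.1 v', alt_wdg _ _⟩, ?_⟩⟩) ?_
  · funext u
    change (wdg y.1 v' *ᵥ v) u = y.1 u
    rw [wdg_mulVec, hv', y.2]
    ring
  · intro y y' h
    simp only [Subtype.mk.injEq] at h
    exact Subtype.ext h

/-- the three conditions -/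
def triHom (v w : I → ZMod p) : ((I → ZMod p) × (I → ZMod p)) →+ ((ZMod p) × (ZMod p) × (ZMod p)) where
  toFun x := (x.1 ⬝ᵥ v, x.2 ⬝ᵥ w, x.1 ⬝ᵥ w + x.2 ⬝ᵥ v)
  map_zero' := by simp
  map_add' a b := by
    simp only [Prod.fst_add, Prod.snd_add, add_dotProduct, Prod.mk_add_mk]
    congr 2
    ring

/-- **two vectors** -/
theorem count2 (v w x y : I → ZMod p) (hv : v ≠ 0) (hw0 : w ≠ 0) (hw : ∀ c : ZMod p, w ≠ c • v) (N : ℕ)
    (hN : Fintype.card I = N + 2) :
    Nat.card {b : AS p I // b.1 *ᵥ v = x ∧ b.1 *ᵥ w = y} * p ^ (2 * N + 1) ≤ Nat.card (AS p I) := by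
  have hwv : ∀ c : ZMod p, v ≠ c • w := by
    rintro c rfl
    have hc : c ≠ 0 := by rintro rfl; exact hv (zero_smul _ _)
    exact hw c⁻¹ (by rw [smul_smul, inv_mul_cancel₀ hc, one_smul])
  have h0 : Nat.card {b : AS p I // b.1 *ᵥ v = x ∧ b.1 *ᵥ w = y} = Nat.card {b : AS p I // ev2 v w b = (x, y)} := by
    refine Nat.card_congr (Equiv.subtypeEquivRight fun b => ?_)
    change _ ↔ (b.1 *ᵥ v, b.1 *ᵥ w) = (x, y)
    rw [Prod.mk.injEq]
  rw [h0]
  have h1 : p ^ (2 * N + 1) ≤ Nat.card (triHom v w).ker := by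
    have h := ker_ge (triHom v w)
    rw [Nat.card_prod, card_vec, hN, Nat.card_prod, Nat.card_prod, Nat.card_zmod] at h
    have e1 : p ^ (N + 2) * p ^ (N + 2) = p ^ (2 * N + 1) * (p * (p * p)) := by ring
    rw [e1] at h
    exact Nat.le_of_mul_le_mul_right h (by have := hp.out.pos; positivity)
  refine fiber_mul_le (ev2 v w) (x, y) _ (h1.trans ?_)
  obtain ⟨w', hw1, hw2⟩ := exists_dual2 v w hv hw
  obtain ⟨v', hv1, hv2⟩ := exists_dual2 w v hw0 hwv
  refine Nat.card_le_card_of_injective (fun q => ⟨q.1, ⟨⟨wdg q.1.1 v' + wdg q.1.2 w' +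
    wdg (fun u => (- (q.1.2 ⬝ᵥ v)) * v' u) w', ?_⟩, ?_⟩⟩) ?_
  · exact (AS p I).add_mem ((AS p I).add_mem (alt_wdg _ _) (alt_wdg _ _)) (alt_wdg _ _)
  · obtain ⟨q, hq⟩ := q
    have hq' : (q.1 ⬝ᵥ v, q.2 ⬝ᵥ w, q.1 ⬝ᵥ w + q.2 ⬝ᵥ v) = (0 : (ZMod p) × (ZMod p) × (ZMod p)) := hq
    simp only [Prod.mk_eq_zero] at hq'
    obtain ⟨hq1, hq2, hq3⟩ := hq'
    have hs : ∀ a : I → ZMod p, (fun u => (- (q.2 ⬝ᵥ v)) * v' u) ⬝ᵥ a = - (q.2 ⬝ᵥ v) * (v' ⬝ᵥ a) := by
      intro a
      exact smul_dotProduct (- (q.2 ⬝ᵥ v)) v' a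
    refine Prod.ext ?_ ?_
    · funext u
      change ((wdg q.1 v' + wdg q.2 w' + wdg (fun u => (- (q.2 ⬝ᵥ v)) * v' u) w') *ᵥ v) u = q.1 u
      rw [Matrix.add_mulVec, Matrix.add_mulVec, Pi.add_apply, Pi.add_apply, wdg_mulVec, wdg_mulVec, wdg_mulVec,
        hs, hv2, hw1, hq1]
      ring
    · funext u
      change ((wdg q.1 v' + wdg q.2 w' + wdg (fun u => (- (q.2 ⬝ᵥ v)) * v' u) w') *ᵥ w) u = q.2 u
      rw [Matrix.add_mulVec, Matrix.add_mulVec, Pi.add_apply, Pi.add_apply, wdg_mulVec, wdg_mulVec, wdg_mulVec,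
        hs, hv1, hw2, hq2]
      linear_combination (-(v' u)) * hq3
  · intro q q' h
    simp only [Subtype.mk.injEq] at h
    exact Subtype.ext h

end Pool.Agent.H47PI
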