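import Mathlib
import Pool.Agent.Y109.PI.Ord
import Pool.Agent.H47PI.Cnt

/-! The number of the alternating matrices `b` such that `b` and `b + D` are both degenerate. -/

set_option autoImplicit false
set_option linter.all false

open Matrix

noncomputable section

namespace Pool.Agent.H47PI

open Pool.Agent.Y109.PI

open scoped Classical

variable {p : ℕ} [hp : Fact p.Prime] {I : Type} [Fintype I] [DecidableEq I]

instance : Fintype (AS p I) := Fintype.ofFinite _

/-- degenerate alternating matrices of even size have at least `p ^ 2` vectors in the radical -/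
theorem rad_ge (g : ℕ) (hg : 0 < g) (hI : Fintype.card I = 2 * g) (b : Matrix I I (ZMod p)) (hb : Alt b)
    (hdet : b.det = 0) : p ^ 2 - 1 ≤ (Finset.univ.filter fun v : I → ZMod p => v ≠ 0 ∧ b *ᵥ v = 0).card := by
  haveI : NeZero p := ⟨hp.out.ne_zero⟩
  obtain ⟨e, f, hef⟩ := sing_decomp g hg hI b hb hdet
  let ψ : (I → ZMod p) →+ (Fin (g - 1) → ZMod p) × (Fin (g - 1) → ZMod p) :=
    { toFun := fun x => (fun i => e i ⬝ᵥ x, fun i => f i ⬝ᵥ x)
      map_zero' := by ext <;> simp
      map_add' := fun a b => by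
        ext <;> simp [dotProduct_add] }
  have h1 := ker_ge ψ
  rw [card_vec, hI, Nat.card_prod, card_vec, Fintype.card_fin] at h1
  have h2 : p ^ 2 ≤ Nat.card ψ.ker := by
    have e1 : p ^ (2 * g) = p ^ 2 * (p ^ (g - 1) * p ^ (g - 1)) := by
      rw [← pow_add, ← pow_add]; congr 1; omega
    rw [e1] at h1
    exact Nat.le_of_mul_le_mul_right h1 (by have := hp.out.pos; positivity)
  have h3 : (Finset.univ.filter fun v : I → ZMod p => b *ᵥ v = 0).card =
      (Finset.univ.filter fun v : I → ZMod p => v ≠ 0 ∧ b *ᵥ v = 0).card + 1 := by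
    have e1 : (Finset.univ.filter fun v : I → ZMod p => b *ᵥ v = 0) =
        insert 0 (Finset.univ.filter fun v : I → ZMod p => v ≠ 0 ∧ b *ᵥ v = 0) := by
      ext v
      simp only [Finset.mem_filter, Finset.mem_univ, true_and, Finset.mem_insert]
      constructor
      · intro h
        by_cases hv : v = 0
        · exact Or.inl hv
        · exact Or.inr ⟨hv, h⟩
      · rintro (rfl | h)
        · simp
        · exact h.2
    rw [e1, Finset.card_insert_of_notMem]
    simp
  have h4 : Nat.card ψ.ker ≤ (Finset.univ.filter fun v : I → ZMod p => b *ᵥ v = 0).card := by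
    rw [← Fintype.card_subtype, ← Nat.card_eq_fintype_card]
    refine Nat.card_le_card_of_injective (fun x => ⟨x.1, ?_⟩) ?_
    · have hx : ((fun i => e i ⬝ᵥ x.1 : Fin (g - 1) → ZMod p), (fun i => f i ⬝ᵥ x.1 : Fin (g - 1) → ZMod p)) = 0 := x.2
      rw [Prod.mk_eq_zero] at hx
      rw [hef, Matrix.sum_mulVec]
      funext u
      rw [Finset.sum_apply, Pi.zero_apply]
      refine Finset.sum_eq_zero fun i _ => ?_
      have ha : e i ⬝ᵥ x.1 = 0 := congrFun hx.1 i
      have hb' : f i ⬝ᵥ x.1 = 0 := congrFun hx.2 i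
      rw [wdg_mulVec, ha, hb', mul_zero, mul_zero, sub_zero]
    · intro a b h
      simp only [Subtype.mk.injEq] at h
      exact Subtype.ext h
  omega

/-- the radical of a nonzero alternating matrix is small -/
theorem rad_le (D : Matrix I I (ZMod p)) (hD : Alt D) (hD0 : D ≠ 0) (N : ℕ) (hN : Fintype.card I = N + 2) :
    (Finset.univ.filter fun v : I → ZMod p => D *ᵥ v = 0).card ≤ p ^ N := by
  let φ : (I → ZMod p) →+ (I → ZMod p) :=
    { toFun := fun x => D *ᵥ x
      map_zero' := by simp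
      map_add' := fun a b => by rw [Matrix.mulVec_add] }
  have h1 := ker_mul φ
  rw [card_vec, hN] at h1
  have h2 : Nat.card φ.ker = (Finset.univ.filter fun v : I → ZMod p => D *ᵥ v = 0).card := by
    rw [← Fintype.card_subtype, ← Nat.card_eq_fintype_card]
    rfl
  have h3 : p ^ 2 ≤ Nat.card φ.range := by
    obtain ⟨u, v, huv⟩ : ∃ u v, D u v ≠ 0 := by
      by_contra h
      push Not at h
      exact hD0 (Matrix.ext h)
    have e1 : Nat.card (ZMod p × ZMod p) = p ^ 2 := by
      rw [Nat.card_prod, Nat.card_zmod, sq]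
    rw [← e1]
    refine Nat.card_le_card_of_injective (fun q => (⟨D *ᵥ (q.1 • Pi.single u 1 + q.2 • Pi.single v 1), ⟨_, rfl⟩⟩ : φ.range)) ?_
    rintro ⟨a, b⟩ ⟨a', b'⟩ h0
    have h : D *ᵥ (a • Pi.single u 1 + b • Pi.single v 1) = D *ᵥ (a' • Pi.single u 1 + b' • Pi.single v 1) :=
      congrArg Subtype.val h0
    rw [Matrix.mulVec_add, Matrix.mulVec_add, Matrix.mulVec_smul, Matrix.mulVec_smul, Matrix.mulVec_smul,
      Matrix.mulVec_smul, Matrix.mulVec_single_one, Matrix.mulVec_single_one] at h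
    have hu := congrFun h u
    have hv := congrFun h v
    simp only [Pi.add_apply, Pi.smul_apply, Matrix.col_apply, smul_eq_mul, hD.1, mul_zero, zero_add, add_zero] at hu hv
    rw [hD.2 v u] at hv
    have h5 : b = b' := mul_right_cancel₀ huv hu
    have h6 : a = a' := mul_right_cancel₀ (neg_ne_zero.2 huv) hv
    rw [h5, h6]
  rw [← h2]
  have h4 : Nat.card φ.ker * p ^ 2 ≤ p ^ N * p ^ 2 := by
    rw [← pow_add, ← h1]
    exact Nat.mul_le_mul_left _ h3
  exact Nat.le_of_mul_le_mul_right h4 (by have := hp.out.pos; positivity)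

/-- the set of the common degenerate matrices -/
def both (D : Matrix I I (ZMod p)) : Finset (AS p I) :=
  Finset.univ.filter fun b => b.1.det = 0 ∧ (b.1 + D).det = 0

/-- the number of the pairs of vectors, orthogonal for `D` -/
def nOrth (D : Matrix I I (ZMod p)) : ℕ :=
  (Finset.univ.filter fun q : (I → ZMod p) × (I → ZMod p) => q.1 ≠ 0 ∧ q.1 ⬝ᵥ (D *ᵥ q.2) = 0).card

/-- the number of the pairs of proportional vectors in the radical of `D` -/
def nProp (D : Matrix I I (ZMod p)) : ℕ :=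
  (Finset.univ.filter fun q : (I → ZMod p) × (I → ZMod p) => q.1 ≠ 0 ∧ D *ᵥ q.1 = 0 ∧
    ∃ c : ZMod p, c ≠ 0 ∧ q.2 = c • q.1).card

theorem pair_bound (D : Matrix I I (ZMod p)) (hD : Alt D) (N : ℕ) (hN : Fintype.card I = N + 2)
    (v w : I → ZMod p) (hv : v ≠ 0) (hw : w ≠ 0) :
    (Finset.univ.filter fun b : AS p I => b.1 *ᵥ v = 0 ∧ (b.1 + D) *ᵥ w = 0).card * p ^ (2 * N + 1) ≤
      Nat.card (AS p I) * (if v ≠ 0 ∧ v ⬝ᵥ (D *ᵥ w) = 0 then 1 else 0) +
      Nat.card (AS p I) * p ^ N * (if v ≠ 0 ∧ D *ᵥ v = 0 ∧ ∃ c : ZMod p, c ≠ 0 ∧ w = c • v then 1 else 0) := by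
  by_cases hdep : ∃ c : ZMod p, w = c • v
  · obtain ⟨c, rfl⟩ := hdep
    have hc : c ≠ 0 := by rintro rfl; exact hw (zero_smul _ _)
    by_cases hDv : D *ᵥ v = 0
    · rw [if_pos (⟨hv, hDv, c, hc, rfl⟩ : v ≠ 0 ∧ D *ᵥ v = 0 ∧ ∃ c' : ZMod p, c' ≠ 0 ∧ c • v = c' • v), mul_one]
      have h1 := count1 (p := p) v 0 hv (N + 1) hN
      have h2 : (Finset.univ.filter fun b : AS p I => b.1 *ᵥ v = 0 ∧ (b.1 + D) *ᵥ (c • v) = 0).card ≤
          Nat.card {b : AS p I // b.1 *ᵥ v = 0} := by
        rw [Nat.card_eq_fintype_card, Fintype.card_subtype]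
        refine Finset.card_le_card fun b hb => ?_
        simp only [Finset.mem_filter, Finset.mem_univ, true_and] at hb ⊢
        exact hb.1
      have e1 : p ^ (2 * N + 1) = p ^ (N + 1) * p ^ N := by rw [← pow_add]; congr 1; omega
      rw [e1, ← mul_assoc]
      exact (Nat.mul_le_mul_right _ ((Nat.mul_le_mul_right _ h2).trans h1)).trans (Nat.le_add_left _ _)
    · have h0 : (Finset.univ.filter fun b : AS p I => b.1 *ᵥ v = 0 ∧ (b.1 + D) *ᵥ (c • v) = 0) = ∅ := by
        rw [Finset.filter_eq_empty_iff]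
        rintro b _ ⟨hb, hb'⟩
        rw [Matrix.mulVec_smul, Matrix.add_mulVec, hb, zero_add] at hb'
        exact hDv ((smul_eq_zero.1 hb').resolve_left hc)
      rw [h0]
      simp
  · push Not at hdep
    by_cases ho : v ⬝ᵥ (D *ᵥ w) = 0
    · rw [if_pos ⟨hv, ho⟩, mul_one]
      have h1 := count2 (p := p) v w 0 (-(D *ᵥ w)) hv hw hdep N hN
      have h2 : (Finset.univ.filter fun b : AS p I => b.1 *ᵥ v = 0 ∧ (b.1 + D) *ᵥ w = 0).card =
          Nat.card {b : AS p I // b.1 *ᵥ v = 0 ∧ b.1 *ᵥ w = -(D *ᵥ w)} := by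
        rw [Nat.card_eq_fintype_card, Fintype.card_subtype]
        congr 1
        refine Finset.filter_congr fun b _ => ?_
        rw [Matrix.add_mulVec, add_eq_zero_iff_eq_neg]
      rw [h2]
      exact h1.trans (Nat.le_add_right _ _)
    · have h0 : (Finset.univ.filter fun b : AS p I => b.1 *ᵥ v = 0 ∧ (b.1 + D) *ᵥ w = 0) = ∅ := by
        rw [Finset.filter_eq_empty_iff]
        rintro b _ ⟨hb, hb'⟩
        apply ho
        rw [Matrix.add_mulVec, add_eq_zero_iff_neg_eq] at hb'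
        rw [← hb', dotProduct_neg, alt_dot b.2, hb, dotProduct_zero, neg_zero, neg_zero]
      rw [h0]
      simp

theorem both_bound (g : ℕ) (hg : 0 < g) (hI : Fintype.card I = 2 * g) (D : Matrix I I (ZMod p)) (hD : Alt D)
    (N : ℕ) (hN : Fintype.card I = N + 2) :
    (both D).card * (p ^ 2 - 1) ^ 2 * p ^ (2 * N + 1) ≤ Nat.card (AS p I) * (nOrth D + p ^ N * nProp D) := by
  let P : AS p I → (I → ZMod p) × (I → ZMod p) → Prop := fun b q =>
    (q.1 ≠ 0 ∧ b.1 *ᵥ q.1 = 0) ∧ (q.2 ≠ 0 ∧ (b.1 + D) *ᵥ q.2 = 0)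
  have h1 : (both D).card * (p ^ 2 - 1) ^ 2 ≤ ∑ b : AS p I, (Finset.univ.filter fun q => P b q).card := by
    calc (both D).card * (p ^ 2 - 1) ^ 2 = ∑ b ∈ both D, (p ^ 2 - 1) ^ 2 := by
          rw [Finset.sum_const, smul_eq_mul]
      _ ≤ ∑ b ∈ both D, (Finset.univ.filter fun q => P b q).card := by
          refine Finset.sum_le_sum fun b hb => ?_
          simp only [both, Finset.mem_filter, Finset.mem_univ, true_and] at hb
          have e1 : (Finset.univ.filter fun q => P b q) =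
              (Finset.univ.filter fun v : I → ZMod p => v ≠ 0 ∧ b.1 *ᵥ v = 0) ×ˢ
              (Finset.univ.filter fun v : I → ZMod p => v ≠ 0 ∧ (b.1 + D) *ᵥ v = 0) := by
            ext q
            simp only [P, Finset.mem_filter, Finset.mem_univ, true_and, Finset.mem_product]
          rw [e1, Finset.card_product, sq]
          exact Nat.mul_le_mul (rad_ge g hg hI b.1 b.2 hb.1)
            (rad_ge g hg hI (b.1 + D) ((AS p I).add_mem b.2 hD) hb.2)
      _ ≤ ∑ b : AS p I, (Finset.univ.filter fun q => P b q).card :=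
          Finset.sum_le_sum_of_subset (Finset.subset_univ _)
  have h2 : ∑ b : AS p I, (Finset.univ.filter fun q => P b q).card =
      ∑ q : (I → ZMod p) × (I → ZMod p), (Finset.univ.filter fun b => P b q).card :=
    Finset.sum_card_bipartiteAbove_eq_sum_card_bipartiteBelow P
  calc (both D).card * (p ^ 2 - 1) ^ 2 * p ^ (2 * N + 1)
      ≤ (∑ q : (I → ZMod p) × (I → ZMod p), (Finset.univ.filter fun b => P b q).card) * p ^ (2 * N + 1) := by
        rw [← h2]; exact Nat.mul_le_mul_right _ h1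
    _ = ∑ q : (I → ZMod p) × (I → ZMod p), (Finset.univ.filter fun b => P b q).card * p ^ (2 * N + 1) := by
        rw [Finset.sum_mul]
    _ ≤ ∑ q : (I → ZMod p) × (I → ZMod p),
        (Nat.card (AS p I) * (if q.1 ≠ 0 ∧ q.1 ⬝ᵥ (D *ᵥ q.2) = 0 then 1 else 0) +
        Nat.card (AS p I) * p ^ N * (if q.1 ≠ 0 ∧ D *ᵥ q.1 = 0 ∧ ∃ c : ZMod p, c ≠ 0 ∧ q.2 = c • q.1 then 1 else 0)) := by
        refine Finset.sum_le_sum fun q _ => ?_
        by_cases hq : q.1 ≠ 0 ∧ q.2 ≠ 0
        · refine le_trans (Nat.mul_le_mul_right _ ?_) (pair_bound D hD N hN q.1 q.2 hq.1 hq.2)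
          refine Finset.card_le_card fun b hb => ?_
          simp only [P, Finset.mem_filter, Finset.mem_univ, true_and] at hb ⊢
          exact ⟨hb.1.2, hb.2.2⟩
        · have h0 : (Finset.univ.filter fun b => P b q) = ∅ := by
            rw [Finset.filter_eq_empty_iff]
            rintro b _ hb
            exact hq ⟨hb.1.1, hb.2.1⟩
          rw [h0, Finset.card_empty, zero_mul]
          exact Nat.zero_le _
    _ = Nat.card (AS p I) * (nOrth D + p ^ N * nProp D) := by
        rw [Finset.sum_add_distrib, ← Finset.mul_sum, ← Finset.mul_sum, nOrth, nProp, Finset.card_filter,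
          Finset.card_filter]
        ring

theorem nProp_le (D : Matrix I I (ZMod p)) (hD : Alt D) (hD0 : D ≠ 0) (N : ℕ) (hN : Fintype.card I = N + 2) :
    nProp D ≤ p ^ N * p := by
  haveI : NeZero p := ⟨hp.out.ne_zero⟩
  have h1 : nProp D ≤ ((Finset.univ.filter fun v : I → ZMod p => D *ᵥ v = 0) ×ˢ (Finset.univ : Finset (ZMod p))).card := by
    refine Finset.card_le_card_of_surjOn (fun q => (q.1, q.2 • q.1)) ?_
    rintro ⟨v, w⟩ h
    simp only [Finset.coe_filter, Finset.mem_univ, true_and, Set.mem_setOf_eq] at h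
    obtain ⟨_, h2, c, _, h3⟩ := h
    refine ⟨(v, c), ?_, ?_⟩
    · simp [h2]
    · simp [h3]
  rw [Finset.card_product, Finset.card_univ, ZMod.card] at h1
  exact h1.trans (Nat.mul_le_mul_right _ (rad_le D hD hD0 N hN))

theorem nProp_nondeg (D : Matrix I I (ZMod p)) (hdet : D.det ≠ 0) : nProp D = 0 := by
  rw [nProp, Finset.card_eq_zero, Finset.filter_eq_empty_iff]
  rintro q _ ⟨h1, h2, _⟩
  exact h1 (Matrix.eq_zero_of_mulVec_eq_zero hdet h2)

theorem nOrth_eq (D : Matrix I I (ZMod p)) (hD : Alt D) :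
    nOrth D = ∑ v : I → ZMod p, if v ≠ 0 then (Finset.univ.filter fun w : I → ZMod p => w ⬝ᵥ (D *ᵥ v) = 0).card else 0 := by
  rw [nOrth, Finset.card_filter, Fintype.sum_prod_type]
  refine Finset.sum_congr rfl fun v _ => ?_
  split_ifs with hv
  · rw [Finset.card_filter]
    refine Finset.sum_congr rfl fun w _ => ?_
    refine if_congr ?_ rfl rfl
    simp only
    rw [alt_dot hD v w, neg_eq_zero]
    exact ⟨fun h => h.2, fun h => ⟨hv, h⟩⟩
  · refine Finset.sum_eq_zero fun w _ => ?_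
    rw [if_neg]
    rintro ⟨h, _⟩
    exact hv h

theorem nOrth_nondeg (D : Matrix I I (ZMod p)) (hD : Alt D) (hdet : D.det ≠ 0) (N : ℕ)
    (hN : Fintype.card I = N + 2) : nOrth D ≤ p ^ (2 * N + 3) := by
  haveI : NeZero p := ⟨hp.out.ne_zero⟩
  rw [nOrth_eq D hD]
  have h1 : ∀ v : I → ZMod p, (if v ≠ 0 then (Finset.univ.filter fun w : I → ZMod p => w ⬝ᵥ (D *ᵥ v) = 0).card else 0) ≤
      p ^ (N + 1) := by
    intro v
    split_ifs with hv
    · rw [← Fintype.card_subtype, ← Nat.card_eq_fintype_card, card_orth_eq (D *ᵥ v) (fun h => hv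
        (Matrix.eq_zero_of_mulVec_eq_zero hdet h)) (N + 1) hN]
    · exact Nat.zero_le _
  refine (Finset.sum_le_sum fun v _ => h1 v).trans ?_
  rw [Finset.sum_const, Finset.card_univ, ← Nat.card_eq_fintype_card, card_vec, hN, smul_eq_mul, ← pow_add]
  exact Nat.pow_le_pow_right hp.out.pos (by omega)

theorem nOrth_le (D : Matrix I I (ZMod p)) (hD : Alt D) (hD0 : D ≠ 0) (N : ℕ)
    (hN : Fintype.card I = N + 2) : nOrth D ≤ p ^ (2 * N + 3) + p ^ (2 * N + 2) := by
  haveI : NeZero p := ⟨hp.out.ne_zero⟩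
  rw [nOrth_eq D hD]
  have h1 : ∀ v : I → ZMod p, (if v ≠ 0 then (Finset.univ.filter fun w : I → ZMod p => w ⬝ᵥ (D *ᵥ v) = 0).card else 0) ≤
      p ^ (N + 1) + (if D *ᵥ v = 0 then p ^ (N + 2) else 0) := by
    intro v
    split_ifs with hv h2 h2
    · refine le_trans ?_ (Nat.le_add_left _ _)
      refine (Finset.card_le_univ _).trans ?_
      rw [← Nat.card_eq_fintype_card, card_vec, hN]
    · rw [← Fintype.card_subtype, ← Nat.card_eq_fintype_card, card_orth_eq (D *ᵥ v) h2 (N + 1) hN, add_zero]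
    · exact Nat.zero_le _
    · exact Nat.zero_le _
  refine (Finset.sum_le_sum fun v _ => h1 v).trans ?_
  rw [Finset.sum_add_distrib, Finset.sum_const, Finset.card_univ, ← Nat.card_eq_fintype_card, card_vec, hN, smul_eq_mul,
    ← pow_add, ← Finset.sum_filter, Finset.sum_const, smul_eq_mul]
  refine add_le_add (le_of_eq (by congr 1; omega)) ?_
  refine (Nat.mul_le_mul_right _ (rad_le D hD hD0 N hN)).trans ?_
  rw [← pow_add]
  exact le_of_eq (by congr 1; omega)

/-- **Two degenerate translates**, nondegenerate difference. -/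
theorem both_nondeg (g : ℕ) (hg : 0 < g) (hI : Fintype.card I = 2 * g) (D : Matrix I I (ZMod p)) (hD : Alt D)
    (hdet : D.det ≠ 0) : (both D).card * (p ^ 2 - 1) ^ 2 ≤ Nat.card (AS p I) * p ^ 2 := by
  obtain ⟨N, hN⟩ : ∃ N, Fintype.card I = N + 2 := ⟨2 * g - 2, by omega⟩
  have h := both_bound g hg hI D hD N hN
  rw [nProp_nondeg D hdet, mul_zero, add_zero] at h
  have h2 := h.trans (Nat.mul_le_mul_left _ (nOrth_nondeg D hD hdet N hN))
  have e1 : p ^ (2 * N + 3) = p ^ 2 * p ^ (2 * N + 1) := by rw [← pow_add]; congr 1; omega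
  rw [e1, ← mul_assoc] at h2
  exact Nat.le_of_mul_le_mul_right h2 (by have := hp.out.pos; positivity)

/-- **Two degenerate translates**, arbitrary nonzero difference. -/
theorem both_le (g : ℕ) (hg : 0 < g) (hI : Fintype.card I = 2 * g) (D : Matrix I I (ZMod p)) (hD : Alt D)
    (hD0 : D ≠ 0) : (both D).card * (p ^ 2 - 1) ^ 2 ≤ Nat.card (AS p I) * (p ^ 2 + p + 1) := by
  obtain ⟨N, hN⟩ : ∃ N, Fintype.card I = N + 2 := ⟨2 * g - 2, by omega⟩
  have h := both_bound g hg hI D hD N hN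
  have h2 := h.trans (Nat.mul_le_mul_left _ (add_le_add (nOrth_le D hD hD0 N hN)
    (Nat.mul_le_mul_left _ (nProp_le D hD hD0 N hN))))
  have e1 : p ^ (2 * N + 3) + p ^ (2 * N + 2) + p ^ N * (p ^ N * p) = (p ^ 2 + p + 1) * p ^ (2 * N + 1) := by ring
  rw [e1, ← mul_assoc] at h2
  exact Nat.le_of_mul_le_mul_right h2 (by have := hp.out.pos; positivity)

end Pool.Agent.H47PI
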