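import Mathlib
import Pool.Agent.Y109.PI.Ord
import Pool.Agent.H47PI.Two

/-! The number of degenerate alternating matrices, and of the degenerate members of a linear space. -/

set_option autoImplicit false
set_option linter.all false

open Matrix

noncomputable section

namespace Pool.Agent.H47PI

open Pool.Agent.Y109.PI Pool.Agent.Helper929

open scoped Classical

variable {p : ℕ} [hp : Fact p.Prime]

/-- the set of the degenerate matrices -/
def sing (p : ℕ) [Fact p.Prime] (I : Type) [Fintype I] [DecidableEq I] : Finset (AS p I) :=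
  Finset.univ.filter fun b => b.1.det = 0

/-- the matrix with a given first row and zeros elsewhere, as a homomorphism -/
def rowHom (k : ℕ) (r : Fin (2 * k + 1) → ZMod p) : AS p (Fin (2 * (k + 1))) :=
  ⟨wdg (Pi.single (0 : Fin (2 * k + 1 + 1)) (1 : ZMod p)) (Fin.cons 0 r), alt_wdg _ _⟩

theorem pf_row (k : ℕ) (b : Matrix (Fin (2 * (k + 1))) (Fin (2 * (k + 1))) (ZMod p)) (r : Fin (2 * k + 1) → ZMod p) :
    pf (2 * (k + 1)) (b + (rowHom k r).1) =
      (fun j => b 0 (Fin.succ (n := 2 * k + 1) j) + r j) ⬝ᵥ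
        (fun j : Fin (2 * k + 1) => (-1) ^ (j : ℕ) * pf (2 * k) (b.submatrix (fun i => (j.succAbove i).succ) (fun i => (j.succAbove i).succ))) := by
  change (∑ j : Fin (2 * k + 1), (-1) ^ (j : ℕ) * (b + (rowHom k r).1) 0 j.succ * pf (2 * k)
      ((b + (rowHom k r).1).submatrix (fun k => (j.succAbove k).succ) (fun k => (j.succAbove k).succ))) = _
  rw [dotProduct]
  refine Finset.sum_congr rfl fun j _ => ?_
  have h1 : (b + (rowHom k r).1) 0 j.succ = b 0 j.succ + r j := by
    change b 0 j.succ + wdg (Pi.single (0 : Fin (2 * k + 1 + 1)) (1 : ZMod p)) (Fin.cons 0 r) 0 j.succ = _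
    simp only [wdg, Matrix.of_apply, Pi.single_eq_same, Fin.cons_succ, Fin.cons_zero]
    ring
  have h2 : (b + (rowHom k r).1).submatrix (fun k => (j.succAbove k).succ) (fun k => (j.succAbove k).succ) =
      b.submatrix (fun i => (j.succAbove i).succ) (fun i => (j.succAbove i).succ) := by
    ext u v
    change b _ _ + wdg (Pi.single (0 : Fin (2 * k + 1 + 1)) (1 : ZMod p)) (Fin.cons 0 r) _ _ = b _ _
    simp only [wdg, Matrix.of_apply]
    rw [Pi.single_eq_of_ne (Fin.succ_ne_zero _), Pi.single_eq_of_ne (Fin.succ_ne_zero _)]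
    ring
  rw [h1, h2]
  ring

/-- **At least the proportion `1 / p` is degenerate.** -/
theorem sing_ge (k : ℕ) : Nat.card (AS p (Fin (2 * (k + 1)))) ≤ (sing p (Fin (2 * (k + 1)))).card * p := by
  haveI : NeZero p := ⟨hp.out.ne_zero⟩
  let A := AS p (Fin (2 * (k + 1)))
  let P : A → (Fin (2 * k + 1) → ZMod p) → Prop := fun b r => (b.1 + (rowHom k r).1).det = 0
  have h1 : ∑ b : A, (Finset.univ.filter fun r => P b r).card =
      ∑ r : Fin (2 * k + 1) → ZMod p, (Finset.univ.filter fun b => P b r).card :=
    Finset.sum_card_bipartiteAbove_eq_sum_card_bipartiteBelow P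
  have h2 : ∀ r : Fin (2 * k + 1) → ZMod p, (Finset.univ.filter fun b => P b r).card =
      (sing p (Fin (2 * (k + 1)))).card := by
    intro r
    refine Finset.card_nbij' (fun b => b + rowHom k r) (fun b => b - rowHom k r) ?_ ?_ ?_ ?_
    · intro b hb
      simp only [P, sing, Finset.coe_filter, Finset.mem_univ, true_and, Set.mem_setOf_eq] at hb ⊢
      exact hb
    · intro b hb
      simp only [P, sing, Finset.coe_filter, Finset.mem_univ, true_and, Set.mem_setOf_eq] at hb ⊢
      change ((b - rowHom k r) + rowHom k r : A).1.det = 0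
      rw [sub_add_cancel]
      exact hb
    · intro b _; simp
    · intro b _; simp
  have h3 : ∀ b : A, p ^ (2 * k) ≤ (Finset.univ.filter fun r => P b r).card := by
    intro b
    let m : Fin (2 * k + 1) → ZMod p := fun j : Fin (2 * k + 1) => (-1) ^ (j : ℕ) *
      pf (2 * k) (b.1.submatrix (fun i => (j.succAbove i).succ) (fun i => (j.succAbove i).succ))
    have h4 := card_orth (p := p) m (2 * k) (Fintype.card_fin _)
    refine h4.trans ?_
    rw [Nat.card_eq_fintype_card, Fintype.card_subtype]
    refine Finset.card_le_card_of_injOn (fun x => fun j => x j - b.1 0 (Fin.succ (n := 2 * k + 1) j)) ?_ ?_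
    · intro x hx
      simp only [P, Finset.coe_filter, Finset.mem_univ, true_and, Set.mem_setOf_eq] at hx ⊢
      rw [det_zero_iff _ (A.add_mem b.2 (rowHom k _).2), pf_row]
      have e1 : (fun j => b.1 0 (Fin.succ (n := 2 * k + 1) j) + (x j - b.1 0 (Fin.succ (n := 2 * k + 1) j))) = x := by
        funext j; ring
      rw [e1]
      exact hx
    · intro x _ y _ h
      funext j
      have := congrFun h j
      simpa using this
  have h5 : Nat.card A * p ^ (2 * k) ≤ (sing p (Fin (2 * (k + 1)))).card * p * p ^ (2 * k) := by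
    calc Nat.card A * p ^ (2 * k) = ∑ b : A, p ^ (2 * k) := by
          rw [Finset.sum_const, Finset.card_univ, Nat.card_eq_fintype_card, smul_eq_mul]
      _ ≤ ∑ b : A, (Finset.univ.filter fun r => P b r).card := Finset.sum_le_sum fun b _ => h3 b
      _ = ∑ r : Fin (2 * k + 1) → ZMod p, (sing p (Fin (2 * (k + 1)))).card := by
          rw [h1]; exact Finset.sum_congr rfl fun r _ => h2 r
      _ = (sing p (Fin (2 * (k + 1)))).card * p * p ^ (2 * k) := by
          rw [Finset.sum_const, Finset.card_univ, Fintype.card_fun, ZMod.card, Fintype.card_fin, smul_eq_mul, pow_succ]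
          ring
  exact Nat.le_of_mul_le_mul_right h5 (by have := hp.out.pos; positivity)

/-- the degenerate members of a linear space which has a nondegenerate member (Schwartz and Zippel) -/
theorem degen_le (g ρ : ℕ) (D : Fin ρ → Matrix (Fin (2 * g)) (Fin (2 * g)) (ZMod p)) (hD : ∀ i, Alt (D i))
    (c0 : Fin ρ → ZMod p) (h0 : (∑ i, c0 i • D i).det ≠ 0) :
    ((Finset.univ.filter fun c : Fin ρ → ZMod p => (∑ i, c i • D i).det = 0).card : ℝ) ≤ g * (p : ℝ) ^ ρ / p := by
  haveI : NeZero p := ⟨hp.out.ne_zero⟩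
  let f : MvPolynomial (Fin ρ) (ZMod p) :=
    pf (2 * g) (Matrix.of fun u v => ∑ i, MvPolynomial.C (D i u v) * MvPolynomial.X i)
  have hf : f.IsHomogeneous g := by
    refine hom_pf g _ fun u v => ?_
    simp only [Matrix.of_apply]
    refine MvPolynomial.IsHomogeneous.sum _ _ _ fun i _ => ?_
    have := (MvPolynomial.isHomogeneous_C (Fin ρ) (D i u v)).mul (MvPolynomial.isHomogeneous_X (ZMod p) i)
    rwa [zero_add] at this
  have heval : ∀ x : Fin ρ → ZMod p, MvPolynomial.eval x f = pf (2 * g) (∑ i, x i • D i) := by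
    intro x
    simp only [f]
    rw [pf_map (MvPolynomial.eval x)]
    congr 1
    ext u v
    simp only [Matrix.map_apply, Matrix.of_apply, map_mul, MvPolynomial.eval_C, MvPolynomial.eval_X, map_sum,
      Matrix.smul_apply, Matrix.sum_apply, smul_eq_mul]
    exact Finset.sum_congr rfl fun i _ => mul_comm _ _
  have halt : ∀ c : Fin ρ → ZMod p, Alt (∑ i, c i • D i) := fun c => Alt.sum _ _ fun i => (hD i).smul _
  have hne : f ≠ 0 := by
    intro h
    apply h0
    rw [det_zero_iff _ (halt c0), ← heval, h, map_zero]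
  have h1 := MvPolynomial.schwartz_zippel_totalDegree hne (Finset.univ : Finset (ZMod p))
  have hpi : (Fintype.piFinset fun _ : Fin ρ => (Finset.univ : Finset (ZMod p))) = Finset.univ := by
    ext x; simp
  rw [hpi, Finset.card_univ, ZMod.card] at h1
  have h2 : (Finset.univ.filter fun c : Fin ρ → ZMod p => (∑ i, c i • D i).det = 0) =
      Finset.univ.filter fun x : Fin ρ → ZMod p => MvPolynomial.eval x f = 0 := by
    refine Finset.filter_congr fun c _ => ?_
    rw [det_zero_iff _ (halt c), heval]
  rw [h2]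
  have h3 : ((Finset.univ.filter fun x : Fin ρ → ZMod p => MvPolynomial.eval x f = 0).card : ℝ) / (p : ℝ) ^ ρ ≤
      (f.totalDegree : ℝ) / p := by
    have h := (NNRat.cast_le (K := ℝ)).2 h1
    push_cast at h
    exact h
  have hp0 : (0 : ℝ) < p := by exact_mod_cast hp.out.pos
  have h4 : (f.totalDegree : ℝ) ≤ g := by exact_mod_cast hf.totalDegree_le
  rw [div_le_iff₀ (by positivity)] at h3
  refine h3.trans ?_
  rw [div_mul_eq_mul_div]
  have : 0 ≤ (p : ℝ) ^ ρ := by positivity
  gcongr

end Pool.Agent.H47PI
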