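import Mathlib
import Pool.Agent.H47PI.Sing

/-! The proportion of the alternating matrices with a degenerate translate by a member of a linear space. -/

set_option autoImplicit false
set_option linter.all false

open Matrix

noncomputable section

namespace Pool.Agent.H47PI

open Pool.Agent.Y109.PI

open scoped Classical

variable {p : ℕ} [hp : Fact p.Prime] {I : Type} [Fintype I] [DecidableEq I]

section

variable {V : Type} [AddCommGroup V] [Fintype V] (L : V →+ AS p I)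

/-- the translates which are degenerate -/
def deg (b : AS p I) : Finset V := Finset.univ.filter fun c => (b + L c).1.det = 0

/-- the matrices with a degenerate translate -/
def goodS : Finset (AS p I) := Finset.univ.filter fun b => ∃ c, (b + L c).1.det = 0

theorem sum_deg : ∑ b : AS p I, (deg L b).card = Fintype.card V * (sing p I).card := by
  have h1 : ∑ b : AS p I, (deg L b).card = ∑ c : V, (Finset.univ.filter fun b : AS p I => (b + L c).1.det = 0).card :=
    Finset.sum_card_bipartiteAbove_eq_sum_card_bipartiteBelow (fun (b : AS p I) (c : V) => (b + L c).1.det = 0)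
  rw [h1]
  have h2 : ∀ c : V, (Finset.univ.filter fun b : AS p I => (b + L c).1.det = 0).card = (sing p I).card := by
    intro c
    refine Finset.card_nbij' (fun b => b + L c) (fun b => b - L c) ?_ ?_ ?_ ?_
    · intro b hb
      simp only [sing, Finset.coe_filter, Finset.mem_univ, true_and, Set.mem_setOf_eq] at hb ⊢
      exact hb
    · intro b hb
      simp only [sing, Finset.coe_filter, Finset.mem_univ, true_and, Set.mem_setOf_eq] at hb ⊢
      rw [sub_add_cancel]
      exact hb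
    · intro b _; simp
    · intro b _; simp
  rw [Finset.sum_congr rfl fun c _ => h2 c, Finset.sum_const, Finset.card_univ, smul_eq_mul]

theorem sum_deg_sq : ∑ b : AS p I, (deg L b).card ^ 2 = Fintype.card V * ∑ d : V, (both (L d).1).card := by
  have h0 : ∀ b : AS p I, (deg L b).card ^ 2 = (Finset.univ.filter fun q : V × V => (b + L q.1).1.det = 0 ∧
      (b + L q.2).1.det = 0).card := by
    intro b
    rw [sq, ← Finset.card_product]
    congr 1
    ext q
    simp only [deg, Finset.mem_product, Finset.mem_filter, Finset.mem_univ, true_and]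
  rw [Finset.sum_congr rfl fun b _ => h0 b]
  have h1 : ∑ b : AS p I, (Finset.univ.filter fun q : V × V => (b + L q.1).1.det = 0 ∧
      (b + L q.2).1.det = 0).card = ∑ q : V × V, (Finset.univ.filter fun b : AS p I => (b + L q.1).1.det = 0 ∧
      (b + L q.2).1.det = 0).card :=
    Finset.sum_card_bipartiteAbove_eq_sum_card_bipartiteBelow
      (fun (b : AS p I) (q : V × V) => (b + L q.1).1.det = 0 ∧ (b + L q.2).1.det = 0)
  rw [h1, Fintype.sum_prod_type]
  have h2 : ∀ c : V, ∑ d : V, (Finset.univ.filter fun b : AS p I => (b + L c).1.det = 0 ∧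
      (b + L d).1.det = 0).card = ∑ d : V, (both (L d).1).card := by
    intro c
    rw [← Equiv.sum_comp (Equiv.addLeft c)]
    refine Finset.sum_congr rfl fun d _ => ?_
    refine Finset.card_nbij' (fun b => b + L c) (fun b => b - L c) ?_ ?_ ?_ ?_
    · intro b hb
      simp only [both, Finset.coe_filter, Finset.mem_univ, true_and, Set.mem_setOf_eq, Equiv.coe_addLeft, map_add] at hb ⊢
      refine ⟨hb.1, ?_⟩
      rw [← add_assoc] at hb
      exact hb.2
    · intro b hb
      simp only [both, Finset.coe_filter, Finset.mem_univ, true_and, Set.mem_setOf_eq, Equiv.coe_addLeft, map_add] at hb ⊢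
      rw [sub_add_cancel]
      refine ⟨hb.1, ?_⟩
      rw [← add_assoc, sub_add_cancel]
      exact hb.2
    · intro b _; simp
    · intro b _; simp
  rw [Finset.sum_congr rfl fun c _ => h2 c, Finset.sum_const, Finset.card_univ, smul_eq_mul]

theorem both_zero : (both (0 : Matrix I I (ZMod p))).card = (sing p I).card := by
  congr 1
  ext b
  simp only [both, sing, Finset.mem_filter, Finset.mem_univ, true_and, add_zero, and_self]

/-- **Second moment.** -/
theorem second (R : ℝ) (hR : ∑ d ∈ Finset.univ.filter (fun d : V => d ≠ 0), ((both (L d).1).card : ℝ) ≤ R) :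
    (Fintype.card V : ℝ) * ((sing p I).card : ℝ) ^ 2 ≤ (goodS L).card * ((sing p I).card + R) := by
  have h1 : (∑ b ∈ goodS L, ((deg L b).card : ℝ)) ^ 2 ≤ (goodS L).card * ∑ b ∈ goodS L, ((deg L b).card : ℝ) ^ 2 :=
    sq_sum_le_card_mul_sum_sq
  have h2 : ∀ b : AS p I, b ∉ goodS L → (deg L b).card = 0 := by
    intro b hb
    rw [Finset.card_eq_zero, deg, Finset.filter_eq_empty_iff]
    intro c _ hc
    exact hb (Finset.mem_filter.2 ⟨Finset.mem_univ _, c, hc⟩)
  have h3 : ∑ b ∈ goodS L, ((deg L b).card : ℝ) = ∑ b : AS p I, ((deg L b).card : ℝ) :=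
    Finset.sum_subset (Finset.subset_univ _) fun b _ hb => by rw [h2 b hb]; simp
  have h4 : ∑ b ∈ goodS L, ((deg L b).card : ℝ) ^ 2 = ∑ b : AS p I, ((deg L b).card : ℝ) ^ 2 :=
    Finset.sum_subset (Finset.subset_univ _) fun b _ hb => by rw [h2 b hb]; simp
  rw [h3, h4] at h1
  have h5 : ∑ b : AS p I, ((deg L b).card : ℝ) = Fintype.card V * (sing p I).card := by
    exact_mod_cast sum_deg L
  have h6 : ∑ b : AS p I, ((deg L b).card : ℝ) ^ 2 = Fintype.card V * ∑ d : V, ((both (L d).1).card : ℝ) := by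
    exact_mod_cast sum_deg_sq L
  have h7 : ∑ d : V, ((both (L d).1).card : ℝ) = (sing p I).card +
      ∑ d ∈ Finset.univ.filter (fun d : V => d ≠ 0), ((both (L d).1).card : ℝ) := by
    have e0 : ((both (L 0).1).card : ℝ) = (sing p I).card := by
      rw [map_zero]
      exact_mod_cast both_zero
    have e1 : Finset.univ.filter (fun d : V => d ≠ 0) = Finset.univ.erase 0 := by
      ext d
      simp
    rw [e1, ← e0]
    exact (Finset.add_sum_erase Finset.univ (fun d : V => ((both (L d).1).card : ℝ)) (Finset.mem_univ 0)).symm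
  rw [h5, h6, h7] at h1
  have hV : (0 : ℝ) < Fintype.card V := by exact_mod_cast Fintype.card_pos
  have h8 : (Fintype.card V : ℝ) * ((Fintype.card V : ℝ) * ((sing p I).card : ℝ) ^ 2) ≤
      (Fintype.card V : ℝ) * ((goodS L).card * ((sing p I).card + R)) := by
    have h9 : (goodS L).card * ((Fintype.card V : ℝ) * ((sing p I).card +
        ∑ d ∈ Finset.univ.filter (fun d : V => d ≠ 0), ((both (L d).1).card : ℝ))) ≤
        (goodS L).card * ((Fintype.card V : ℝ) * ((sing p I).card + R)) := by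
      gcongr
    nlinarith [h1, h9]
  exact le_of_mul_le_mul_left h8 hV

end

/-- the numerical conclusion -/
theorem numeric (P S A G R q : ℝ) (hP : 0 < P) (hA : 0 < A) (hq : 0 < q) (hR : 0 ≤ R) (hS : A ≤ S * q)
    (hG : 0 ≤ G) (h : P * S ^ 2 ≤ G * (S + R * A)) : A * P ≤ G * (q * (1 + q * R)) := by
  have hS0 : 0 < S := by
    by_contra hh
    push Not at hh
    nlinarith
  -- S^2 * (A / q + R A) ≥ (A / q)^2 (S + R A)
  have h1 : A * (S + R * A) ≤ S ^ 2 * (q * (1 + q * R)) := by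
    have e1 : A * S ≤ S ^ 2 * q := by nlinarith
    have e2 : A * (R * A) ≤ S ^ 2 * (q * (q * R)) := by
      have : A * A ≤ (S * q) * (S * q) := mul_le_mul hS hS hA.le (by positivity)
      nlinarith [mul_le_mul_of_nonneg_right this hR]
    nlinarith
  have h2 : 0 < S + R * A := by positivity
  have h3 : A * P * (S + R * A) ≤ G * (q * (1 + q * R)) * (S + R * A) := by
    calc A * P * (S + R * A) = P * (A * (S + R * A)) := by ring
      _ ≤ P * (S ^ 2 * (q * (1 + q * R))) := by gcongr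
      _ = (P * S ^ 2) * (q * (1 + q * R)) := by ring
      _ ≤ (G * (S + R * A)) * (q * (1 + q * R)) := by gcongr
      _ = G * (q * (1 + q * R)) * (S + R * A) := by ring
  exact le_of_mul_le_mul_right h3 h2

section

variable (g : ℕ)

theorem sing_ge' (hg : 0 < g) : (Nat.card (AS p (Fin (2 * g))) : ℝ) ≤ (sing p (Fin (2 * g))).card * p := by
  obtain ⟨k, rfl⟩ : ∃ k, g = k + 1 := ⟨g - 1, by omega⟩
  exact_mod_cast sing_ge (p := p) k

/-- the linear space of the combinations -/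
def comb {ρ : ℕ} (D : Fin ρ → Matrix I I (ZMod p)) (hD : ∀ i, Alt (D i)) : (Fin ρ → ZMod p) →+ AS p I where
  toFun c := ⟨∑ i, c i • D i, Alt.sum _ _ fun i => (hD i).smul _⟩
  map_zero' := by
    apply Subtype.ext
    simp
  map_add' c d := by
    apply Subtype.ext
    simp [add_smul, Finset.sum_add_distrib]

theorem comb_apply {ρ : ℕ} (D : Fin ρ → Matrix I I (ZMod p)) (hD : ∀ i, Alt (D i)) (c : Fin ρ → ZMod p) :
    (comb D hD c).1 = ∑ i, c i • D i := rfl

/-- **More than half** for one nondegenerate matrix. -/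
theorem half (hg : 0 < g) (D : Matrix (Fin (2 * g)) (Fin (2 * g)) (ZMod p)) (hD : Alt D) (hdet : D.det ≠ 0) :
    Nat.card (AS p (Fin (2 * g))) < 2 * (goodS (comb (fun _ : Fin 1 => D) (fun _ => hD))).card := by
  haveI : NeZero p := ⟨hp.out.ne_zero⟩
  set L := comb (fun _ : Fin 1 => D) (fun _ => hD) with hL
  set A := Nat.card (AS p (Fin (2 * g))) with hA
  have hp2 : (2 : ℝ) ≤ p := by exact_mod_cast hp.out.two_le
  have hA0 : (0 : ℝ) < A := by exact_mod_cast Nat.card_pos
  have hq0 : (0 : ℝ) < ((p : ℝ) ^ 2 - 1) ^ 2 := by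
    have : (0 : ℝ) < (p : ℝ) ^ 2 - 1 := by nlinarith
    positivity
  have hone : ∀ d : Fin 1 → ZMod p, d ≠ 0 → ((both (L d).1).card : ℝ) ≤ A * (p : ℝ) ^ 2 / ((p : ℝ) ^ 2 - 1) ^ 2 := by
    intro d hd
    have hd0 : d 0 ≠ 0 := by
      intro h
      apply hd
      funext i
      rw [Fin.fin_one_eq_zero i, h]; rfl
    have h1 : (L d).1 = d 0 • D := by
      rw [hL, comb_apply, Fin.sum_univ_one]
    have h2 : (d 0 • D).det ≠ 0 := by
      rw [Matrix.det_smul]
      exact mul_ne_zero (pow_ne_zero _ hd0) hdet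
    have h3 := both_nondeg (p := p) g hg (Fintype.card_fin _) (d 0 • D) (hD.smul _) h2
    rw [h1, le_div_iff₀ hq0]
    have h4 : (((both (d 0 • D)).card * (p ^ 2 - 1) ^ 2 : ℕ) : ℝ) ≤ ((A * p ^ 2 : ℕ) : ℝ) := by exact_mod_cast h3
    push_cast [Nat.one_le_pow 2 p hp.out.pos] at h4
    exact h4
  have hsum : ∑ d ∈ Finset.univ.filter (fun d : Fin 1 → ZMod p => d ≠ 0), ((both (L d).1).card : ℝ) ≤
      (((p : ℝ) - 1) * (p : ℝ) ^ 2 / ((p : ℝ) ^ 2 - 1) ^ 2) * A := by
    have h1 : (Finset.univ.filter (fun d : Fin 1 → ZMod p => d ≠ 0)).card + 1 = p := by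
      have e1 : Finset.univ.filter (fun d : Fin 1 → ZMod p => d ≠ 0) = Finset.univ.erase 0 := by
        ext d
        simp
      rw [e1, Finset.card_erase_add_one (Finset.mem_univ _), Finset.card_univ, Fintype.card_fun,
        ZMod.card, Fintype.card_fin, pow_one]
    have h3 : ((Finset.univ.filter (fun d : Fin 1 → ZMod p => d ≠ 0)).card : ℝ) = p - 1 := by
      rw [eq_sub_iff_add_eq]
      exact_mod_cast h1
    calc ∑ d ∈ Finset.univ.filter (fun d : Fin 1 → ZMod p => d ≠ 0), ((both (L d).1).card : ℝ)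
        ≤ ∑ d ∈ Finset.univ.filter (fun d : Fin 1 → ZMod p => d ≠ 0), A * (p : ℝ) ^ 2 / ((p : ℝ) ^ 2 - 1) ^ 2 :=
          Finset.sum_le_sum fun d hd => hone d (Finset.mem_filter.1 hd).2
      _ = (((p : ℝ) - 1) * (p : ℝ) ^ 2 / ((p : ℝ) ^ 2 - 1) ^ 2) * A := by
          rw [Finset.sum_const, nsmul_eq_mul, h3]; ring
  have h1 := second L ((((p : ℝ) - 1) * (p : ℝ) ^ 2 / ((p : ℝ) ^ 2 - 1) ^ 2) * A) (by convert hsum)
  have hcV : (Fintype.card (Fin 1 → ZMod p) : ℝ) = p := by
    rw [Fintype.card_fun, ZMod.card, Fintype.card_fin, pow_one]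
  rw [hcV] at h1
  have h2 := numeric p _ A _ _ p (by linarith) hA0 (by linarith) (by
    have : (0 : ℝ) ≤ (p : ℝ) - 1 := by linarith
    positivity) (sing_ge' g hg) (Nat.cast_nonneg _) h1
  -- p (1 + p R) < 2 p
  have h3 : (p : ℝ) * (((p : ℝ) - 1) * (p : ℝ) ^ 2 / ((p : ℝ) ^ 2 - 1) ^ 2) < 1 := by
    rw [mul_div_assoc', div_lt_one hq0]
    have : 0 < (p : ℝ) ^ 2 - p - 1 := by nlinarith
    nlinarith [mul_pos (show (0 : ℝ) < p - 1 by linarith) this]
  have hG0 : (0 : ℝ) < (goodS L).card := by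
    by_contra hh
    have : ((goodS L).card : ℝ) = 0 := le_antisymm (not_lt.1 hh) (Nat.cast_nonneg _)
    rw [this, zero_mul] at h2
    nlinarith
  have h4 : (A : ℝ) * p < (goodS L).card * (p * 2) := by
    refine h2.trans_lt ?_
    have : (p : ℝ) * (1 + p * (((p : ℝ) - 1) * (p : ℝ) ^ 2 / ((p : ℝ) ^ 2 - 1) ^ 2)) < p * 2 := by
      have hp0 : (0 : ℝ) < p := by linarith
      exact mul_lt_mul_of_pos_left (by linarith) hp0
    exact mul_lt_mul_of_pos_left this hG0
  have h5 : (A : ℝ) < 2 * (goodS L).card := by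
    have hp0 : (0 : ℝ) < p := by linarith
    have : (A : ℝ) * p < 2 * (goodS L).card * p := by linarith
    exact lt_of_mul_lt_mul_right this hp0.le
  exact_mod_cast h5

/-- **Almost all** for a linear space with a nondegenerate member. -/
theorem almost (hg : 0 < g) {ρ : ℕ} (D : Fin ρ → Matrix (Fin (2 * g)) (Fin (2 * g)) (ZMod p)) (hD : ∀ i, Alt (D i))
    (hlin : LinearIndependent (ZMod p) D) (c0 : Fin ρ → ZMod p) (h0 : (∑ i, c0 i • D i).det ≠ 0) :
    (Nat.card (AS p (Fin (2 * g))) : ℝ) - (goodS (comb D hD)).card <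
      (p / (p : ℝ) ^ ρ + (2 * g + 4) / (p : ℝ) ^ 2) * Nat.card (AS p (Fin (2 * g))) := by
  haveI : NeZero p := ⟨hp.out.ne_zero⟩
  set L := comb D hD with hL
  set A := Nat.card (AS p (Fin (2 * g))) with hA
  have hp2 : (2 : ℝ) ≤ p := by exact_mod_cast hp.out.two_le
  have hp0 : (0 : ℝ) < p := by linarith
  have hA0 : (0 : ℝ) < A := by exact_mod_cast Nat.card_pos
  have hg0 : (0 : ℝ) ≤ g := Nat.cast_nonneg _
  have hg1 : (1 : ℝ) ≤ g := by exact_mod_cast hg
  rcases eq_or_lt_of_le hp.out.two_le with hp2' | hp2'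
  · have e1 : (1 : ℝ) < p / (p : ℝ) ^ ρ + (2 * g + 4) / (p : ℝ) ^ 2 := by
      have e2 : (1 : ℝ) < (2 * g + 4) / (p : ℝ) ^ 2 := by
        rw [← hp2', lt_div_iff₀ (by norm_num)]
        push_cast
        linarith
      have e3 : (0 : ℝ) ≤ p / (p : ℝ) ^ ρ := by positivity
      linarith
    have e4 : (0 : ℝ) ≤ ((goodS L).card : ℝ) := Nat.cast_nonneg _
    nlinarith
  have hq1 : (0 : ℝ) < (p : ℝ) ^ 2 - 1 := by nlinarith
  have hq0 : (0 : ℝ) < ((p : ℝ) ^ 2 - 1) ^ 2 := by positivity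
  have hone : ∀ d : Fin ρ → ZMod p, d ≠ 0 → ((both (L d).1).card : ℝ) ≤
      A / ((p : ℝ) ^ 2 - 1) ^ 2 * ((p : ℝ) ^ 2 + (if (∑ i, d i • D i).det = 0 then (p : ℝ) + 1 else 0)) := by
    intro d hd
    have h1 : (L d).1 = ∑ i, d i • D i := comb_apply D hD d
    have hne : ∑ i, d i • D i ≠ 0 := by
      intro h
      apply hd
      funext i
      exact Fintype.linearIndependent_iff.1 hlin d h i
    rw [h1, div_mul_eq_mul_div, le_div_iff₀ hq0]
    have halt : Alt (∑ i, d i • D i) := Alt.sum _ _ fun i => (hD i).smul _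
    split_ifs with hdet
    · have h3 := both_le (p := p) g hg (Fintype.card_fin _) _ halt hne
      have h4 : (((both (∑ i, d i • D i)).card * (p ^ 2 - 1) ^ 2 : ℕ) : ℝ) ≤ ((A * (p ^ 2 + p + 1) : ℕ) : ℝ) := by
        exact_mod_cast h3
      push_cast [Nat.one_le_pow 2 p hp.out.pos] at h4
      linarith
    · have h3 := both_nondeg (p := p) g hg (Fintype.card_fin _) _ halt hdet
      have h4 : (((both (∑ i, d i • D i)).card * (p ^ 2 - 1) ^ 2 : ℕ) : ℝ) ≤ ((A * p ^ 2 : ℕ) : ℝ) := by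
        exact_mod_cast h3
      push_cast [Nat.one_le_pow 2 p hp.out.pos] at h4
      linarith
  have hsum : ∑ d ∈ Finset.univ.filter (fun d : Fin ρ → ZMod p => d ≠ 0), ((both (L d).1).card : ℝ) ≤
      ((p : ℝ) ^ ρ * ((p : ℝ) ^ 2 + g * ((p : ℝ) + 1) / p) / ((p : ℝ) ^ 2 - 1) ^ 2) * A := by
    calc ∑ d ∈ Finset.univ.filter (fun d : Fin ρ → ZMod p => d ≠ 0), ((both (L d).1).card : ℝ)
        ≤ ∑ d ∈ Finset.univ.filter (fun d : Fin ρ → ZMod p => d ≠ 0),
          A / ((p : ℝ) ^ 2 - 1) ^ 2 * ((p : ℝ) ^ 2 + (if (∑ i, d i • D i).det = 0 then (p : ℝ) + 1 else 0)) :=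
          Finset.sum_le_sum fun d hd => hone d (Finset.mem_filter.1 hd).2
      _ ≤ ∑ d : Fin ρ → ZMod p,
          A / ((p : ℝ) ^ 2 - 1) ^ 2 * ((p : ℝ) ^ 2 + (if (∑ i, d i • D i).det = 0 then (p : ℝ) + 1 else 0)) := by
          refine Finset.sum_le_sum_of_subset_of_nonneg (Finset.subset_univ _) fun d _ _ => ?_
          split_ifs <;> positivity
      _ = A / ((p : ℝ) ^ 2 - 1) ^ 2 * ((p : ℝ) ^ ρ * (p : ℝ) ^ 2 +
          (Finset.univ.filter fun c : Fin ρ → ZMod p => (∑ i, c i • D i).det = 0).card * ((p : ℝ) + 1)) := by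
          rw [← Finset.mul_sum, Finset.sum_add_distrib, Finset.sum_const, Finset.card_univ, Fintype.card_fun, ZMod.card,
            Fintype.card_fin, nsmul_eq_mul, ← Finset.sum_filter, Finset.sum_const, nsmul_eq_mul]
          push_cast
          ring
      _ ≤ A / ((p : ℝ) ^ 2 - 1) ^ 2 * ((p : ℝ) ^ ρ * (p : ℝ) ^ 2 + (g * (p : ℝ) ^ ρ / p) * ((p : ℝ) + 1)) := by
          have := degen_le g ρ D hD c0 h0
          gcongr
      _ = ((p : ℝ) ^ ρ * ((p : ℝ) ^ 2 + g * ((p : ℝ) + 1) / p) / ((p : ℝ) ^ 2 - 1) ^ 2) * A := by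
          ring
  have h1 := second L (((p : ℝ) ^ ρ * ((p : ℝ) ^ 2 + g * ((p : ℝ) + 1) / p) / ((p : ℝ) ^ 2 - 1) ^ 2) * A) (by convert hsum)
  have hcV : (Fintype.card (Fin ρ → ZMod p) : ℝ) = (p : ℝ) ^ ρ := by
    rw [Fintype.card_fun, ZMod.card, Fintype.card_fin]
    push_cast; rfl
  rw [hcV] at h1
  set κ := ((p : ℝ) ^ 2 + g * ((p : ℝ) + 1) / p) / ((p : ℝ) ^ 2 - 1) ^ 2 with hκ
  have hκ0 : 0 ≤ κ := by positivity
  have hR : (p : ℝ) ^ ρ * ((p : ℝ) ^ 2 + g * ((p : ℝ) + 1) / p) / ((p : ℝ) ^ 2 - 1) ^ 2 = (p : ℝ) ^ ρ * κ := by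
    rw [hκ]; ring
  rw [hR] at h1
  have hP0 : (0 : ℝ) < (p : ℝ) ^ ρ := by positivity
  have h2 := numeric ((p : ℝ) ^ ρ) _ A _ ((p : ℝ) ^ ρ * κ) p hP0 hA0 hp0 (by positivity) (sing_ge' g hg)
    (Nat.cast_nonneg _) h1
  set G : ℝ := ((goodS L).card : ℝ) with hG
  set P : ℝ := (p : ℝ) ^ ρ with hP
  -- x = p / P + p ^ 2 κ, A ≤ G x, so A - G ≤ A (x - 1)
  set x : ℝ := p / P + (p : ℝ) ^ 2 * κ with hx
  have hx0 : 0 < x := by
    have : 0 < (p : ℝ) / P := by positivity
    have : 0 ≤ (p : ℝ) ^ 2 * κ := by positivity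
    linarith
  have h3 : A ≤ G * x := by
    have e1 : G * (p * (1 + p * (P * κ))) = G * x * P := by
      rw [hx]; field_simp
    rw [e1] at h2
    exact le_of_mul_le_mul_right h2 hP0
  have h4 : (A : ℝ) - G ≤ A * (x - 1) := by
    have : G ≥ A / x := by
      rw [ge_iff_le, div_le_iff₀ hx0]; exact h3
    have h5 : (1 : ℝ) - 1 / x ≤ x - 1 := by
      have : x + 1 / x ≥ 2 := by
        rw [ge_iff_le, ← sub_nonneg]
        have : x + 1 / x - 2 = (x - 1) ^ 2 / x := by field_simp; ring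
        rw [this]; positivity
      linarith
    calc (A : ℝ) - G ≤ A - A / x := by linarith
      _ = A * (1 - 1 / x) := by ring
      _ ≤ A * (x - 1) := by gcongr
  refine h4.trans_lt ?_
  rw [mul_comm]
  refine mul_lt_mul_of_pos_right ?_ hA0
  -- numerical inequality
  have h6 : (p : ℝ) ^ 2 * κ - 1 < (2 * g + 4) / (p : ℝ) ^ 2 := by
    have hp3 : (3 : ℝ) ≤ p := by exact_mod_cast hp2'
    rw [hκ, lt_div_iff₀ (by positivity), mul_div_assoc', sub_mul, div_mul_eq_mul_div, sub_lt_iff_lt_add,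
      div_lt_iff₀ hq0]
    have e1 : (p : ℝ) ^ 2 * ((p : ℝ) ^ 2 + g * ((p : ℝ) + 1) / p) * (p : ℝ) ^ 2 =
        (p : ℝ) ^ 6 + g * (p : ℝ) ^ 4 + g * (p : ℝ) ^ 3 := by
      field_simp
      ring
    rw [e1]
    have h9 : (9 : ℝ) ≤ (p : ℝ) ^ 2 := by nlinarith
    have h10 : (p : ℝ) ^ 3 * 3 ≤ (p : ℝ) ^ 4 := by nlinarith [pow_pos hp0 3]
    have h11 : (9 : ℝ) * (p : ℝ) ^ 2 ≤ (p : ℝ) ^ 4 := by nlinarith [pow_pos hp0 2]
    nlinarith [mul_le_mul_of_nonneg_left h10 hg0, mul_le_mul_of_nonneg_left h11 hg0, mul_nonneg hg0 (pow_pos hp0 2).le]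
  rw [hx]; linarith

end

end Pool.Agent.H47PI
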