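import Mathlib
import Pool.Agent.H47PI.Prop
import Pool.Agent.Y109.PI.Ord

/-! From the proportion of alternating matrices to the proportion of classes. -/

set_option autoImplicit false
set_option linter.all false

open Matrix

noncomputable section

namespace Pool.Agent.H47PI

open Pool.Agent.Y109.PI

section fib

variable {X Y : Type*} [AddCommGroup X] [AddCommGroup Y] [Finite X]

/-- preimages under a surjective homomorphism -/
theorem card_pre (φ : X →+ Y) (hφ : Function.Surjective φ) (S : Set Y) :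
    Nat.card {x // φ x ∈ S} = Nat.card S * Nat.card φ.ker := by
  rw [← Nat.card_prod]
  refine Nat.card_congr
    { toFun := fun x => (⟨φ x.1, x.2⟩, ⟨x.1 - Function.surjInv hφ (φ x.1), ?_⟩)
      invFun := fun q => ⟨Function.surjInv hφ q.1.1 + q.2.1, ?_⟩
      left_inv := ?_
      right_inv := ?_ }
  · rw [AddMonoidHom.mem_ker, map_sub, Function.surjInv_eq hφ, sub_self]
  · have := AddMonoidHom.mem_ker.1 q.2.2
    rw [map_add, Function.surjInv_eq hφ, this, add_zero]
    exact q.1.2
  · intro x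
    apply Subtype.ext
    simp
  · rintro ⟨⟨y, hy⟩, ⟨k, hk⟩⟩
    have hk' : φ k = 0 := AddMonoidHom.mem_ker.1 hk
    have h1 : φ (Function.surjInv hφ y + k) = y := by
      rw [map_add, Function.surjInv_eq hφ, hk', add_zero]
    apply Prod.ext
    · apply Subtype.ext
      exact h1
    · apply Subtype.ext
      simp only [h1]
      simp

theorem card_pre_mul (φ : X →+ Y) (hφ : Function.Surjective φ) (S : Set Y) :
    Nat.card {x // φ x ∈ S} * Nat.card Y = Nat.card S * Nat.card X := by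
  have h1 := card_pre φ hφ S
  have h2 := card_pre φ hφ Set.univ
  have e1 : Nat.card {x // φ x ∈ (Set.univ : Set Y)} = Nat.card X :=
    Nat.card_congr (Equiv.subtypeUnivEquiv fun x => Set.mem_univ _)
  rw [e1, Nat.card_univ] at h2
  rw [h1, h2]
  ring

end fib

section

variable {m : ℕ}

/-- the upper triangular part as integral exponents -/
def up {n : ℕ} (b : Matrix (Fin m) (Fin m) (ZMod n)) : Fin m → Fin m → ℤ :=
  fun u v => if u < v then ((b u v).val : ℤ) else 0

theorem dif_up {n : ℕ} [NeZero n] (b : Matrix (Fin m) (Fin m) (ZMod n)) (hb : Alt b) (u v : Fin m) :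
    ((dif (up b) u v : ℤ) : ZMod n) = b u v := by
  simp only [dif, Matrix.of_apply, up]
  rcases lt_trichotomy u v with h | h | h
  · rw [if_pos h, if_neg (asymm h), sub_zero, vcast]
  · subst h
    simp [hb.1 u]
  · rw [if_neg (asymm h), if_pos h, zero_sub, Int.cast_neg, vcast, hb.2 v u, neg_neg]

/-- reduction of alternating integral matrices -/
def redA {n : ℕ} (b : Matrix (Fin m) (Fin m) ℤ) (hb : Alt b) : AS n (Fin m) := ⟨red n b, hb.map' _⟩

/-- reduction of alternating matrices modulo a divisor -/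
def redH {n p : ℕ} (h : p ∣ n) : AS n (Fin m) →+ AS p (Fin m) where
  toFun b := ⟨b.1.map (ZMod.castHom h (ZMod p)), b.2.map' _⟩
  map_zero' := by
    apply Subtype.ext
    ext u v
    simp
  map_add' b c := by
    apply Subtype.ext
    ext u v
    exact map_add (ZMod.castHom h (ZMod p)) _ _

theorem redH_surj {n p : ℕ} [NeZero p] (h : p ∣ n) : Function.Surjective (redH (m := m) h) := by
  intro b
  refine ⟨redA (dif (up b.1)) (alt_dif _), ?_⟩
  apply Subtype.ext
  ext u v
  have h1 := dif_up b.1 b.2 u v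
  simp only [redH, redA, AddMonoidHom.coe_mk, ZeroHom.coe_mk, Matrix.map_apply, red, eq_intCast, map_intCast]
  exact h1

theorem finAS (n : ℕ) [NeZero n] : Finite (AS n (Fin m)) := by
  have : Finite (Matrix (Fin m) (Fin m) (ZMod n)) := by
    unfold Matrix
    infer_instance
  exact Subtype.finite

/-- a degenerate translate modulo a squarefree number -/
theorem sing_all {ρ : ℕ} (n g : ℕ) (hn : Squarefree n) (hg : 0 < g) {I : Type*} [Fintype I] [DecidableEq I]
    (hI : Fintype.card I = 2 * g) (w : Fin ρ → I → I → ℤ) (b : Matrix I I ℤ) (hb : Alt b)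
    (h : ∀ p : ℕ, p.Prime → p ∣ n → ∃ c : Fin ρ → ZMod p, (red p b + ∑ i, c i • red p (dif (w i))).det = 0) :
    ∃ (c : Fin ρ → ℤ) (e f : Fin (g - 1) → I → ℤ), ∀ u v,
      (n : ℤ) ∣ (b + ∑ i, c i • dif (w i)) u v - (∑ i, wdg (e i) (f i)) u v := by
  have hn0 : 0 < n := Nat.pos_of_ne_zero hn.ne_zero
  have h1 : ∀ p : ℕ, ∃ (c : Fin ρ → ℤ) (e f : Fin (g - 1) × I → ℤ), p.Prime → p ∣ n →
      red p (b + ∑ i, c i • dif (w i)) = ∑ i, wdg (fun u => (e (i, u) : ZMod p)) (fun u => (f (i, u) : ZMod p)) := by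
    intro p
    by_cases hp : p.Prime ∧ p ∣ n
    · haveI : Fact p.Prime := ⟨hp.1⟩
      haveI : NeZero p := ⟨hp.1.ne_zero⟩
      obtain ⟨c, hc⟩ := h p hp.1 hp.2
      have hc' : (red p (b + ∑ i, ((c i).val : ℤ) • dif (w i))).det = 0 := by
        rw [red_add_sum]
        simp only [vcast]
        exact hc
      obtain ⟨e, f, hef⟩ := sing_decomp g hg hI (red p (b + ∑ i, ((c i).val : ℤ) • dif (w i)))
        ((hb.add (Alt.sum _ _ fun i => (alt_dif (w i)).smul _)).map' _) hc'
      refine ⟨fun i => (c i).val, fun q => (e q.1 q.2).val, fun q => (f q.1 q.2).val, fun _ _ => ?_⟩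
      rw [hef]
      simp only [vcast]
    · exact ⟨0, 0, 0, fun a b => absurd ⟨a, b⟩ hp⟩
  choose a e f haef using h1
  obtain ⟨x, hx⟩ := crt_fun n a
  obtain ⟨y, hy⟩ := crt_fun n e
  obtain ⟨y', hy'⟩ := crt_fun n f
  refine ⟨x, fun i u => y (i, u), fun i u => y' (i, u), fun u v => ?_⟩
  refine dvd_of_squarefree n hn _ fun p hp hpn => ?_
  rw [← ZMod.intCast_zmod_eq_zero_iff_dvd, Int.cast_sub, sub_eq_zero]
  have h2 : ((b + ∑ i, x i • dif (w i)) u v : ZMod p) = red p (b + ∑ i, x i • dif (w i)) u v := rfl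
  rw [h2, red_add_sum]
  have h3 : ∀ i, ((x i : ℤ) : ZMod p) = a p i := fun i => hx p hp hpn hn0 i
  simp only [h3]
  rw [← red_add_sum, haef p hp hpn, Matrix.sum_apply, Matrix.sum_apply, Int.cast_sum]
  refine Finset.sum_congr rfl fun i _ => ?_
  simp only [wdg, Matrix.of_apply]
  rw [← hy p hp hpn hn0, ← hy' p hp hpn hn0, ← hy p hp hpn hn0, ← hy' p hp hpn hn0]
  push_cast
  ring

/-- the matrices without degenerate translates -/
def badM {ρ : ℕ} (w : Fin ρ → Fin m → Fin m → ℤ) (p : ℕ) : Set (AS p (Fin m)) :=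
  {b | ¬ ∃ c : Fin ρ → ZMod p, (b.1 + ∑ i, c i • red p (dif (w i))).det = 0}

/-- their proportion -/
def β {ρ : ℕ} (w : Fin ρ → Fin m → Fin m → ℤ) (p : ℕ) : ℝ :=
  (Nat.card (badM w p) : ℝ) / Nat.card (AS p (Fin m))

end

section abs

variable {G B : Type*} [CommGroup G] [CommGroup B] {s : G →* G →* B} {m : ℕ}

/-- the class of an alternating matrix -/
def cls (s : G →* G →* B) (n : ℕ) [NeZero n] (z : Fin m → G)
    (hQ : ∀ w w' : Fin m → Fin m → ℤ, (∀ u v, (n : ℤ) ∣ dif w u v - dif w' u v) → Q s z w = Q s z w') :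
    AS n (Fin m) →+ Additive B where
  toFun b := Additive.ofMul (Q s z (up b.1))
  map_zero' := by
    rw [← ofMul_one, ← Q_zero s z]
    congr 1
    refine hQ _ _ fun u v => ?_
    have h1 := dif_up (0 : AS n (Fin m)).1 (0 : AS n (Fin m)).2 u v
    rw [← ZMod.intCast_zmod_eq_zero_iff_dvd, Int.cast_sub]
    refine (congrArg (fun t => t - _) h1).trans ?_
    simp [dif]
  map_add' b c := by
    rw [← ofMul_mul, ← Q_add]
    congr 1
    refine hQ _ _ fun u v => ?_
    have h0 := dif_up (b + c).1 (b + c).2 u v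
    have h1 : dif (up b.1 + up c.1) u v = dif (up b.1) u v + dif (up c.1) u v := by
      simp only [dif, Matrix.of_apply, Pi.add_apply]; ring
    rw [← ZMod.intCast_zmod_eq_zero_iff_dvd, Int.cast_sub, h1, Int.cast_add]
    have h2 := dif_up b.1 b.2 u v
    have h3 := dif_up c.1 c.2 u v
    rw [h0, h2, h3]
    simp

theorem cls_dif (n : ℕ) [NeZero n] (z : Fin m → G)
    (hQ : ∀ w w' : Fin m → Fin m → ℤ, (∀ u v, (n : ℤ) ∣ dif w u v - dif w' u v) → Q s z w = Q s z w')
    (w : Fin m → Fin m → ℤ) : cls s n z hQ (redA (dif w) (alt_dif w)) = Additive.ofMul (Q s z w) := by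
  change Additive.ofMul (Q s z (up (red n (dif w)))) = _
  congr 1
  refine hQ _ _ fun u v => ?_
  have h1 := dif_up (red n (dif w)) ((alt_dif w).map' _) u v
  rw [← ZMod.intCast_zmod_eq_zero_iff_dvd, Int.cast_sub, h1]
  simp [red]

/-- **Counting classes.** -/
theorem abs_count (hanti : ∀ a b, s a b = (s b a)⁻¹) (n : ℕ) (hn : Squarefree n)
    (htors : ∀ a b, s a b ^ n = 1) (ε : G)
    (H : Subgroup G) (hε : ε ∈ H) (hdiag : ∀ a, s a a = 1 ∨ s a a = s a ε)
    (hV : ∀ a ∈ H, ∀ b, s a b = 1) (g : ℕ) (hg : 0 < g)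
    (z : Fin (2 * g) → G) {ρ : ℕ} (w : Fin ρ → Fin (2 * g) → Fin (2 * g) → ℤ) (hw : ∀ i, Q s z (w i) = 1)
    (T : Subgroup B) (hT : T = Subgroup.closure {γ | ∃ a ∈ H ⊔ Subgroup.closure (Set.range z),
      ∃ b ∈ H ⊔ Subgroup.closure (Set.range z), γ = s a b})
    (Good : B → Prop) (hGood : ∀ x y : Fin (g - 1) → G, Good (∏ i, s (x i) (y i))) :
    Finite T ∧ (Nat.card {α : B // α ∈ T ∧ ¬ Good α} : ℝ) ≤ (∑ p ∈ n.primeFactors, β w p) * Nat.card T := by
  have hn0 : 0 < n := Nat.pos_of_ne_zero hn.ne_zero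
  haveI : NeZero n := ⟨hn0.ne'⟩
  haveI : Finite (AS n (Fin (2 * g))) := finAS n
  have hlow : low s H ⊥ z ≤ (⊥ : Subgroup B) := by
    refine sup_le le_rfl ?_
    rw [Subgroup.closure_le]
    rintro γ ⟨a, ha, u, rfl⟩
    rw [hV a ha]
    exact Subgroup.one_mem _
  have hQ : ∀ w w' : Fin (2 * g) → Fin (2 * g) → ℤ, (∀ u v, (n : ℤ) ∣ dif w u v - dif w' u v) → Q s z w = Q s z w' := by
    intro w w' h
    have h1 := hlow (Q_congr hanti n htors ε H hε hdiag ⊥ z w w' h)
    rw [Subgroup.mem_bot, mul_inv_eq_one] at h1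
    exact h1
  have hVH : ∀ a ∈ H, ∀ b ∈ H, s a b ∈ (⊥ : Subgroup B) := fun a ha b _ => by
    rw [hV a ha b]; exact Subgroup.one_mem _
  -- the surjection
  have hmem : ∀ w : Fin (2 * g) → Fin (2 * g) → ℤ, Q s z w ∈ T := by
    intro w
    rw [hT, Q]
    refine Subgroup.prod_mem _ fun q _ => Subgroup.zpow_mem _ ?_ _
    have h0 : ∀ u, z u ∈ H ⊔ Subgroup.closure (Set.range z) := fun u =>
      (le_sup_right : _ ≤ H ⊔ Subgroup.closure (Set.range z)) (Subgroup.subset_closure ⟨u, rfl⟩)
    exact Subgroup.subset_closure ⟨_, h0 _, _, h0 _, rfl⟩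
  have hsurj0 : ∀ α ∈ T, ∃ w : Fin (2 * g) → Fin (2 * g) → ℤ, α = Q s z w := by
    intro α hα
    rw [hT] at hα
    obtain ⟨w1, hw1⟩ := exists_Q hanti H ⊥ hVH z α hα
    have h1 := hlow hw1
    rw [Subgroup.mem_bot, mul_inv_eq_one] at h1
    exact ⟨w1, h1⟩
  let Φ : AS n (Fin (2 * g)) →+ Additive T :=
    { toFun := fun b => Additive.ofMul ⟨(cls s n z hQ b).toMul, hmem _⟩
      map_zero' := by
        rw [← ofMul_one]
        congr 1
        apply Subtype.ext
        exact congrArg Additive.toMul (map_zero (cls s n z hQ))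
      map_add' := fun b c => by
        rw [← ofMul_mul]
        congr 1
        apply Subtype.ext
        exact congrArg Additive.toMul (map_add (cls s n z hQ) b c) }
  have hΦ : Function.Surjective Φ := by
    intro α
    obtain ⟨w1, h1⟩ := hsurj0 α.toMul.1 α.toMul.2
    refine ⟨redA (dif w1) (alt_dif w1), ?_⟩
    have h2 := congrArg Additive.toMul (cls_dif (s := s) n z hQ w1)
    have h3 : (Φ (redA (dif w1) (alt_dif w1))).toMul = α.toMul := by
      apply Subtype.ext
      rw [h1]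
      exact h2
    exact Additive.toMul.injective h3
  have hfin : Finite T := by
    have : Finite (Additive T) := Finite.of_surjective _ hΦ
    exact this
  refine ⟨hfin, ?_⟩
  -- the bad set
  let S : Set (Additive T) := {α | ¬ Good (α.toMul : T).1}
  have hS : Nat.card {α : B // α ∈ T ∧ ¬ Good α} = Nat.card S := by
    let f : {α : B // α ∈ T ∧ ¬ Good α} → S := fun α => ⟨Additive.ofMul (⟨α.1, α.2.1⟩ : T), α.2.2⟩
    let f' : S → {α : B // α ∈ T ∧ ¬ Good α} := fun α => ⟨(α.1.toMul : T).1, (α.1.toMul : T).2, α.2⟩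
    exact Nat.card_congr { toFun := f, invFun := f', left_inv := fun α => rfl, right_inv := fun α => rfl }
  have hkey : ∀ b : AS n (Fin (2 * g)), Φ b ∈ S → ∃ p ∈ n.primeFactors, ∀ h : p ∣ n, redH h b ∈ badM w p := by
    intro b hb
    by_contra hcon
    push Not at hcon
    apply hb
    have hdeg : ∀ p : ℕ, p.Prime → p ∣ n → ∃ c : Fin ρ → ZMod p,
        (red p (dif (up b.1)) + ∑ i, c i • red p (dif (w i))).det = 0 := by
      intro p hp hpn
      obtain ⟨h, h1⟩ := hcon p (Nat.mem_primeFactors.2 ⟨hp, hpn, hn0.ne'⟩)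
      simp only [badM, Set.mem_setOf_eq, not_not] at h1
      obtain ⟨c, hc⟩ := h1
      refine ⟨c, ?_⟩
      have e1 : red p (dif (up b.1)) = (redH h b).1 := by
        ext u v
        have h2 := dif_up b.1 b.2 u v
        simp only [redH, AddMonoidHom.coe_mk, ZeroHom.coe_mk, Matrix.map_apply, red, eq_intCast]
        rw [← h2, map_intCast]
      rw [e1]
      exact hc
    obtain ⟨c, e, f, h⟩ := sing_all n g hn hg (Fintype.card_fin _) w (dif (up b.1)) (alt_dif _) hdeg
    have h1 := mod_low hanti n htors ε H hε hdiag ⊥ z (up b.1 + ∑ i, c i • w i) (g - 1) e f (by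
      intro u v
      have e1 : (up b.1 + ∑ i, c i • w i) u v - (up b.1 + ∑ i, c i • w i) v u =
          (dif (up b.1) + ∑ i, c i • dif (w i)) u v := by
        rw [← dif_comb]
        simp only [Pi.add_apply, Matrix.add_apply, Matrix.of_apply, dif]
        ring
      rw [e1]
      exact h u v)
    rw [Q_add, Q_comb] at h1
    have hw0 : ∏ i, Q s z (w i) ^ c i = 1 := Finset.prod_eq_one fun i _ => by rw [hw i, _root_.one_zpow]
    rw [hw0, mul_one] at h1
    have h2 := hlow h1
    rw [Subgroup.mem_bot, mul_inv_eq_one] at h2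
    change Good (Q s z (up b.1))
    rw [h2]
    exact hGood _ _
  -- counting
  have hX0 : (0 : ℝ) < Nat.card (AS n (Fin (2 * g))) := by exact_mod_cast Nat.card_pos
  have h1 := card_pre_mul Φ hΦ S
  have h2 : (Nat.card {b // Φ b ∈ S} : ℝ) ≤ ∑ p ∈ n.primeFactors, β w p * Nat.card (AS n (Fin (2 * g))) := by
    classical
    have e1 : ∀ p ∈ n.primeFactors, (Nat.card {b : AS n (Fin (2 * g)) // ∀ h : p ∣ n, redH h b ∈ badM w p} : ℝ) =
        β w p * Nat.card (AS n (Fin (2 * g))) := by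
      intro p hp
      obtain ⟨hp, hpn, _⟩ := Nat.mem_primeFactors.1 hp
      haveI : Fact p.Prime := ⟨hp⟩
      haveI : NeZero p := ⟨hp.ne_zero⟩
      have e2 := card_pre_mul (redH (m := 2 * g) hpn) (redH_surj hpn) (badM w p)
      have e3 : Nat.card {b : AS n (Fin (2 * g)) // ∀ h : p ∣ n, redH h b ∈ badM w p} =
          Nat.card {b : AS n (Fin (2 * g)) // redH hpn b ∈ badM w p} :=
        Nat.card_congr (Equiv.subtypeEquivRight fun b => ⟨fun h => h hpn, fun h _ => h⟩)
      rw [e3, β, div_mul_eq_mul_div, eq_div_iff (by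
        have : 0 < Nat.card (AS p (Fin (2 * g))) := Nat.card_pos
        exact_mod_cast this.ne')]
      exact_mod_cast e2
    rw [← Finset.sum_congr rfl e1]
    haveI : Fintype (AS n (Fin (2 * g))) := Fintype.ofFinite _
    have e4 : Nat.card {b // Φ b ∈ S} = (Finset.univ.filter fun b => Φ b ∈ S).card := by
      rw [Nat.card_eq_fintype_card, Fintype.card_subtype]
    have e5 : ∀ p, Nat.card {b : AS n (Fin (2 * g)) // ∀ h : p ∣ n, redH h b ∈ badM w p} =
        (Finset.univ.filter fun b : AS n (Fin (2 * g)) => ∀ h : p ∣ n, redH h b ∈ badM w p).card := by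
      intro p
      rw [Nat.card_eq_fintype_card, Fintype.card_subtype]
    simp only [e4, e5]
    have e6 : (Finset.univ.filter fun b => Φ b ∈ S) ⊆ n.primeFactors.biUnion fun p =>
        Finset.univ.filter fun b : AS n (Fin (2 * g)) => ∀ h : p ∣ n, redH h b ∈ badM w p := by
      intro b hb
      obtain ⟨p, hp, h⟩ := hkey b (Finset.mem_filter.1 hb).2
      exact Finset.mem_biUnion.2 ⟨p, hp, Finset.mem_filter.2 ⟨Finset.mem_univ _, h⟩⟩
    have e7 := (Finset.card_le_card e6).trans Finset.card_biUnion_le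
    exact_mod_cast e7
  rw [hS]
  have h3 : (Nat.card S : ℝ) * Nat.card (AS n (Fin (2 * g))) = Nat.card {b // Φ b ∈ S} * Nat.card T := by
    have : Nat.card (Additive T) = Nat.card T := rfl
    rw [← this]
    exact_mod_cast h1.symm
  have h4 : (Nat.card S : ℝ) * Nat.card (AS n (Fin (2 * g))) ≤
      ((∑ p ∈ n.primeFactors, β w p) * Nat.card T) * Nat.card (AS n (Fin (2 * g))) := by
    rw [h3]
    calc (Nat.card {b // Φ b ∈ S} : ℝ) * Nat.card T
        ≤ (∑ p ∈ n.primeFactors, β w p * Nat.card (AS n (Fin (2 * g)))) * Nat.card T := by gcongr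
      _ = _ := by rw [← Finset.sum_mul]; ring
  exact le_of_mul_le_mul_right h4 hX0

end abs

section bounds

variable {p : ℕ} [hp : Fact p.Prime]

theorem β_eq (g : ℕ) {ρ : ℕ} (w : Fin ρ → Fin (2 * g) → Fin (2 * g) → ℤ) :
    (Nat.card (badM w p) : ℝ) = (Nat.card (AS p (Fin (2 * g))) : ℝ) -
      (goodS (comb (fun i => red p (dif (w i))) (fun i => (alt_dif (w i)).map' _))).card := by
  classical
  haveI : NeZero p := ⟨hp.out.ne_zero⟩
  set L := comb (fun i => red p (dif (w i))) (fun i => (alt_dif (w i)).map' _) with hL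
  have h1 : Nat.card (badM w p) + (goodS L).card = Nat.card (AS p (Fin (2 * g))) := by
    have e1 : Nat.card (badM w p) = (Finset.univ.filter fun b => b ∉ goodS L).card := by
      rw [← Fintype.card_subtype, ← Nat.card_eq_fintype_card]
      refine Nat.card_congr (Equiv.subtypeEquivRight fun b => ?_)
      rw [goodS, Finset.mem_filter]
      simp only [Finset.mem_univ, true_and]
      exact Iff.rfl
    rw [e1, Nat.card_eq_fintype_card]
    have e2 := Finset.card_filter_add_card_filter_not (s := (Finset.univ : Finset (AS p (Fin (2 * g))))) (fun b => b ∈ goodS L)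
    have e3 : (Finset.univ.filter fun b => b ∈ goodS L) = goodS L := by
      ext b; simp
    rw [e3, Finset.card_univ] at e2
    rw [← e2, add_comm]
  rw [eq_sub_iff_add_eq]
  exact_mod_cast h1

theorem β_almost (g : ℕ) (hg : 0 < g) {ρ : ℕ} (w : Fin ρ → Fin (2 * g) → Fin (2 * g) → ℤ)
    (hlin : LinearIndependent (ZMod p) fun i => red p (dif (w i))) (c0 : Fin ρ → ZMod p)
    (h0 : (∑ i, c0 i • red p (dif (w i))).det ≠ 0) :
    β w p < p / (p : ℝ) ^ ρ + (2 * g + 4) / (p : ℝ) ^ 2 := by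
  have hA0 : (0 : ℝ) < Nat.card (AS p (Fin (2 * g))) := by exact_mod_cast Nat.card_pos
  rw [β, div_lt_iff₀ hA0, β_eq]
  exact almost g hg _ _ hlin c0 h0

theorem β_half (g : ℕ) (hg : 0 < g) {ρ : ℕ} (w : Fin ρ → Fin (2 * g) → Fin (2 * g) → ℤ) (c0 : Fin ρ → ZMod p)
    (h0 : (∑ i, c0 i • red p (dif (w i))).det ≠ 0) : β w p < 1 / 2 := by
  classical
  haveI : NeZero p := ⟨hp.out.ne_zero⟩
  have hA0 : (0 : ℝ) < Nat.card (AS p (Fin (2 * g))) := by exact_mod_cast Nat.card_pos
  rw [β, div_lt_iff₀ hA0, β_eq]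
  have halt : Alt (∑ i, c0 i • red p (dif (w i))) := Alt.sum _ _ fun i => ((alt_dif (w i)).map' _).smul _
  have h1 := half g hg _ halt h0
  have h2 : (goodS (comb (fun _ : Fin 1 => ∑ i, c0 i • red p (dif (w i))) (fun _ => halt))).card ≤
      (goodS (comb (fun i => red p (dif (w i))) (fun i => (alt_dif (w i)).map' _))).card := by
    refine Finset.card_le_card fun b hb => ?_
    rw [goodS, Finset.mem_filter] at hb ⊢
    obtain ⟨_, c, hc⟩ := hb
    refine ⟨Finset.mem_univ _, fun i => c 0 * c0 i, ?_⟩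
    rw [← hc]
    congr 1
    have e1 : ∀ (a d : AS p (Fin (2 * g))), (a + d).1 = a.1 + d.1 := fun _ _ => rfl
    rw [e1, e1]
    congr 1
    refine (comb_apply _ _ _).trans (Eq.trans ?_ (comb_apply _ _ _).symm)
    rw [Fin.sum_univ_one, Finset.smul_sum]
    simp only [mul_smul]
  have h3 : (Nat.card (AS p (Fin (2 * g))) : ℝ) < 2 *
      (goodS (comb (fun i => red p (dif (w i))) (fun i => (alt_dif (w i)).map' _))).card := by
    have := h1.trans_le (Nat.mul_le_mul_left 2 h2)
    exact_mod_cast this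
  linarith

end bounds

end Pool.Agent.H47PI
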